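import Mathlib

/-!
Kinds of trees, the pruning game on multisets of trees, and the graphs of forests.
-/

set_option autoImplicit false

namespace Pool.Agent.Helper7.Cog

/-- Kinds of rooted trees. -/
inductive L
  /-- a single vertex -/
  | leaf
  /-- a single edge, rooted at an end -/
  | k2
  /-- a root with `x + 1` single edges below it -/
  | sw (x : ℕ)
  /-- a root with `w + 1` children: trees `sw x` for `x` in `a`, and single edges -/
  | big (w : ℕ) (a : List ℕ)
  deriving DecidableEq

/-- The kinds of the subtrees at the children of the root. -/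
def kids : L → List L
  | .leaf => []
  | .k2 => [.leaf]
  | .sw x => List.replicate (x + 1) .k2
  | .big w a => a.map .sw ++ List.replicate (w + 1 - a.length) .k2

/-- Staller to move in the pruning game: she takes the root of a tree (and wins if it was a single
vertex). -/
def ASx (P : Multiset L → Prop) (M : Multiset L) : Prop :=
  M = 0 ∨ ∀ l ∈ M, kids l ≠ [] ∧ P (M.erase l + (kids l : Multiset L))

/-- Dominator to move in the pruning game: he removes one tree; he can remove everything with at
most `k` moves of his own. -/
def AD : ℕ → Multiset L → Prop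
  | 0, M => M = 0
  | k + 1, M => M = 0 ∨ ∃ l ∈ M, ASx (AD k) (M.erase l)

/-- The same with Staller to move. -/
def AS (k : ℕ) (M : Multiset L) : Prop := ASx (AD k) M

/-! ### Graphs -/

/-- The vertices of a tree as paths, down to depth `n`. -/
def pathsFrom : ℕ → L → List (List ℕ)
  | 0, _ => [[]]
  | n + 1, l => [] :: (List.range (kids l).length).flatMap fun j =>
      (pathsFrom n ((kids l).getD j .leaf)).map (j :: ·)

/-- The vertices of a forest as paths. -/
def verts (F : List L) : List (List ℕ) :=
  (List.range F.length).flatMap fun j => (pathsFrom 3 (F.getD j .leaf)).map (j :: ·)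

/-- The comparability graph of a list of paths ordered by the relation of being an initial
segment. -/
def pgraph (vs : List (List ℕ)) : SimpleGraph (Fin vs.length) where
  Adj i j := i ≠ j ∧ (vs[i] <+: vs[j] ∨ vs[j] <+: vs[i])
  symm := ⟨fun _ _ h => ⟨h.1.symm, h.2.symm⟩⟩
  loopless := ⟨fun _ h => h.1 rfl⟩

/-- The graph of a forest. -/
def gr (F : List L) : SimpleGraph (Fin (verts F).length) := pgraph (verts F)

/-! ### Counting -/

/-- The number of elements of `E` that are larger than `t`. -/
def cnt (E : Multiset ℕ) (t : ℕ) : ℕ := E.countP (t < ·)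

/-- What the first player collects from a sum of switches. -/
def up (B : ℕ) (E : Multiset ℕ) : ℕ := ∑ t ∈ Finset.range B, (cnt E t + 1) / 2

/-- What the second player collects from a sum of switches. -/
def dn (B : ℕ) (E : Multiset ℕ) : ℕ := ∑ t ∈ Finset.range B, cnt E t / 2

/-- The pairs of trees. -/
def pairs (n : ℕ) (W : ℕ → ℕ) (c : ℕ → Bool → List ℕ) : List L :=
  (List.range n).flatMap fun i => [.big (W i) (c i true), .big (W i) (c i false)]

/-- The union of the chosen contents. -/
def content (n : ℕ) (c : ℕ → Bool → List ℕ) (ch : ℕ → Bool) : Multiset ℕ :=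
  ∑ i ∈ Finset.range n, (c i (ch i) : Multiset ℕ)

end Pool.Agent.Helper7.Cog
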