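import Pool.Agent.Helper7.Cog.Abs

/-!
Bounds for the pruning game.
-/

set_option autoImplicit false

namespace Pool.Agent.Helper7.Cog

open Finset

/-! ### Counting -/

theorem cnt_zero (t : ℕ) : cnt 0 t = 0 := rfl

theorem cnt_cons (x : ℕ) (E : Multiset ℕ) (t : ℕ) :
    cnt (x ::ₘ E) t = cnt E t + if t < x then 1 else 0 := by
  unfold cnt
  rw [Multiset.countP_cons]

theorem cnt_add (E E' : Multiset ℕ) (t : ℕ) : cnt (E + E') t = cnt E t + cnt E' t := by
  unfold cnt
  rw [Multiset.countP_add]

theorem cnt_le {E E' : Multiset ℕ} (h : E ≤ E') (t : ℕ) : cnt E t ≤ cnt E' t :=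
  Multiset.countP_le_of_le _ h

theorem cnt_eq_zero {E : Multiset ℕ} {t : ℕ} (h : ∀ x ∈ E, x ≤ t) : cnt E t = 0 := by
  unfold cnt
  rw [Multiset.countP_eq_zero]
  intro x hx
  have := h x hx
  omega

theorem up_mono (B : ℕ) {E E' : Multiset ℕ} (h : E ≤ E') : up B E ≤ up B E' := by
  unfold up
  refine Finset.sum_le_sum fun t _ => ?_
  have := cnt_le h t
  omega

theorem dn_mono (B : ℕ) {E E' : Multiset ℕ} (h : E ≤ E') : dn B E ≤ dn B E' := by
  unfold dn
  refine Finset.sum_le_sum fun t _ => ?_
  have := cnt_le h t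
  omega

theorem dn_le_up (B : ℕ) (E : Multiset ℕ) : dn B E ≤ up B E := by
  unfold up dn
  refine Finset.sum_le_sum fun t _ => ?_
  omega

theorem up_zero (B : ℕ) : up B 0 = 0 := by
  unfold up
  refine Finset.sum_eq_zero fun t _ => ?_
  rw [cnt_zero]
  rfl

theorem sum_ind (B x : ℕ) : ∑ t ∈ range B, (if t < x then 1 else 0) = min x B := by
  rw [Finset.sum_ite, Finset.sum_const_zero, add_zero, Finset.sum_const, smul_eq_mul, mul_one]
  have : (range B).filter (fun t => t < x) = range (min x B) := by
    ext t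
    simp only [Finset.mem_filter, Finset.mem_range]
    omega
  rw [this, Finset.card_range]

/-- Taking a switch. -/
theorem take_le (B x : ℕ) (E : Multiset ℕ) : min x B + dn B E ≤ up B (x ::ₘ E) := by
  rw [← sum_ind, up, dn, ← Finset.sum_add_distrib]
  refine Finset.sum_le_sum fun t _ => ?_
  rw [cnt_cons]
  split_ifs <;> omega

/-- Taking the largest switch. -/
theorem up_cons_max (B x : ℕ) (E : Multiset ℕ) (h : ∀ y ∈ E, y ≤ x) :
    up B (x ::ₘ E) = min x B + dn B E := by
  rw [← sum_ind, up, dn, ← Finset.sum_add_distrib]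
  refine Finset.sum_congr rfl fun t _ => ?_
  rw [cnt_cons]
  split_ifs with hx
  · omega
  · rw [cnt_eq_zero (fun y hy => (h y hy).trans (not_lt.mp hx))]

/-- Removing the largest switch. -/
theorem dn_cons_max (B x : ℕ) (E : Multiset ℕ) (h : ∀ y ∈ E, y ≤ x) :
    dn B (x ::ₘ E) = up B E := by
  rw [up, dn]
  refine Finset.sum_congr rfl fun t _ => ?_
  rw [cnt_cons]
  split_ifs with hx
  · rfl
  · rw [cnt_eq_zero (fun y hy => (h y hy).trans (not_lt.mp hx))]

theorem dn_cons_le (B x : ℕ) (E : Multiset ℕ) : dn B (x ::ₘ E) ≤ up B E := by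
  rw [up, dn]
  refine Finset.sum_le_sum fun t _ => ?_
  rw [cnt_cons]
  split_ifs <;> omega

theorem sum_cnt_le (B : ℕ) (E : Multiset ℕ) : ∑ t ∈ range B, cnt E t ≤ E.sum := by
  induction E using Multiset.induction_on with
  | empty => simp [cnt_zero]
  | cons x E ih =>
    simp only [cnt_cons, Multiset.sum_cons]
    rw [Finset.sum_add_distrib, sum_ind]
    omega

theorem up_le_sum (B : ℕ) (E : Multiset ℕ) : up B E ≤ E.sum := by
  refine le_trans ?_ (sum_cnt_le B E)
  unfold up
  refine Finset.sum_le_sum fun t _ => ?_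
  omega

theorem up_add_zeros (B : ℕ) (E : Multiset ℕ) (n : ℕ) :
    up B (E + Multiset.replicate n 0) = up B E := by
  unfold up
  refine Finset.sum_congr rfl fun t _ => ?_
  rw [cnt_add, cnt_eq_zero (E := Multiset.replicate n 0), add_zero]
  intro x hx
  rw [Multiset.eq_of_mem_replicate hx]
  exact Nat.zero_le t

/-! ### The game -/

theorem AD_zero (k : ℕ) : AD k 0 := by
  cases k with
  | zero => rfl
  | succ k => exact Or.inl rfl

theorem AS_zero (k : ℕ) : AS k 0 := Or.inl rfl

/-- The weight of the root. -/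
def wt : L → ℕ
  | .leaf => 0
  | .k2 => 0
  | .sw x => x
  | .big w _ => w

theorem wt_lt_kids {l : L} (h : kids l ≠ []) : wt l + 1 ≤ (kids l).length := by
  cases l with
  | leaf => exact absurd rfl h
  | k2 => simp [kids, wt]
  | sw x => simp [kids, wt]
  | big w a => simp only [kids, wt, List.length_append, List.length_map, List.length_replicate]; omega

/-- The greedy strategy of Staller. -/
theorem greedy (B : ℕ) (k : ℕ) :
    (∀ M : Multiset L, k < M.card + dn B (M.map wt) → ¬ AD k M) ∧
    (∀ M : Multiset L, k < M.card + up B (M.map wt) → ¬ AS k M) := by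
  have hS : ∀ k, (∀ M : Multiset L, k < M.card + dn B (M.map wt) → ¬ AD k M) →
      (∀ M : Multiset L, k < M.card + up B (M.map wt) → ¬ AS k M) := by
    intro k ih M hk hw
    have hM : M ≠ 0 := by
      rintro rfl
      rw [Multiset.map_zero, up_zero] at hk
      simp at hk
    rcases hw with hw | hw
    · exact hM hw
    · obtain ⟨l, hl, hmax⟩ : ∃ l ∈ M, ∀ l' ∈ M, wt l' ≤ wt l := by
        obtain ⟨l, hl, h⟩ := Finset.exists_max_image M.toFinset wt
          (by rw [Multiset.toFinset_nonempty]; exact hM)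
        exact ⟨l, Multiset.mem_toFinset.mp hl, fun l' hl' => h l' (Multiset.mem_toFinset.mpr hl')⟩
      obtain ⟨h1, h2⟩ := hw l hl
      have h3 := wt_lt_kids h1
      refine ih _ ?_ h2
      have hcard : M.card = (M.erase l).card + 1 := (Multiset.card_erase_add_one hl).symm
      have hup : up B (M.map wt) = min (wt l) B + dn B ((M.erase l).map wt) := by
        conv_lhs => rw [← Multiset.cons_erase hl, Multiset.map_cons]
        refine up_cons_max B _ _ (fun y hy => ?_)
        obtain ⟨l', hl', rfl⟩ := Multiset.mem_map.mp hy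
        exact hmax l' (Multiset.mem_of_mem_erase hl')
      rw [Multiset.card_add, Multiset.coe_card, Multiset.map_add]
      have h4 : dn B ((M.erase l).map wt) ≤ dn B ((M.erase l).map wt + (kids l : Multiset L).map wt) :=
        dn_mono B (Multiset.le_add_right _ _)
      have h5 : min (wt l) B ≤ wt l := min_le_left _ _
      omega
  have hD : ∀ M : Multiset L, k < M.card + dn B (M.map wt) → ¬ AD k M := by
    induction k with
    | zero =>
      intro M hk hw
      have hM : M = 0 := hw
      subst hM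
      have := dn_le_up B ((0 : Multiset L).map wt)
      rw [Multiset.map_zero, up_zero] at this
      rw [Multiset.map_zero, Multiset.card_zero] at hk
      omega
    | succ k ih =>
      intro M hk hw
      have hM : M ≠ 0 := by
        rintro rfl
        have := dn_le_up B ((0 : Multiset L).map wt)
        rw [Multiset.map_zero, up_zero] at this
        rw [Multiset.map_zero, Multiset.card_zero] at hk
        omega
      rcases hw with hw | ⟨l, hl, hw⟩
      · exact hM hw
      · refine hS k ih _ ?_ hw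
        have hcard : M.card = (M.erase l).card + 1 := (Multiset.card_erase_add_one hl).symm
        have h1 : dn B (M.map wt) ≤ up B ((M.erase l).map wt) := by
          conv_lhs => rw [← Multiset.cons_erase hl, Multiset.map_cons]
          exact dn_cons_le B _ _
        omega
  exact ⟨hD, hS k hD⟩

/-! ### Sums of pairs -/

section Pairs

variable (W : ℕ → ℕ) (c : ℕ → Bool → List ℕ)

/-- The trees of the pairs in `R`. -/
def PR (R : Finset ℕ) : Multiset L :=
  ∑ i ∈ R, ({.big (W i) (c i true), .big (W i) (c i false)} : Multiset L)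

/-- The general position. -/
def Pos (R : Finset ℕ) (M : Multiset ℕ) (n : ℕ) : Multiset L :=
  PR W c R + (M.map .sw + Multiset.replicate n .k2)

/-- The contents chosen in `R`. -/
def cont (R : Finset ℕ) (ch : ℕ → Bool) : Multiset ℕ :=
  ∑ i ∈ R, (c i (ch i) : Multiset ℕ)

variable {W c}

theorem PR_split {R : Finset ℕ} {i : ℕ} (hi : i ∈ R) (b : Bool) :
    PR W c R = .big (W i) (c i b) ::ₘ .big (W i) (c i !b) ::ₘ PR W c (R.erase i) := by
  unfold PR
  rw [← Finset.add_sum_erase R _ hi]
  cases b
  · rw [Multiset.pair_comm, Multiset.insert_eq_cons, Multiset.cons_add, Multiset.singleton_add]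
    rfl
  · rw [Multiset.insert_eq_cons, Multiset.cons_add, Multiset.singleton_add]
    rfl

theorem Pos_big {R : Finset ℕ} {i : ℕ} (hi : i ∈ R) (b : Bool) (M : Multiset ℕ) (n : ℕ) :
    Pos W c R M n = .big (W i) (c i b) ::ₘ .big (W i) (c i !b) ::ₘ Pos W c (R.erase i) M n := by
  unfold Pos
  rw [PR_split hi b, Multiset.cons_add, Multiset.cons_add]

theorem Pos_sw (R : Finset ℕ) {M : Multiset ℕ} {x : ℕ} (hx : x ∈ M) (n : ℕ) :
    Pos W c R M n = .sw x ::ₘ Pos W c R (M.erase x) n := by
  unfold Pos
  conv_lhs => rw [← Multiset.cons_erase hx]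
  rw [Multiset.map_cons, Multiset.cons_add, Multiset.add_cons]

theorem Pos_k2 (R : Finset ℕ) (M : Multiset ℕ) (n : ℕ) :
    Pos W c R M (n + 1) = .k2 ::ₘ Pos W c R M n := by
  unfold Pos
  rw [Multiset.replicate_succ, Multiset.add_cons, Multiset.add_cons]

theorem Pos_add_k2 (R : Finset ℕ) (M : Multiset ℕ) (n m : ℕ) :
    Pos W c R M n + (List.replicate m L.k2 : Multiset L) = Pos W c R M (n + m) := by
  unfold Pos
  rw [add_assoc, add_assoc, Multiset.coe_replicate, ← Multiset.replicate_add]

theorem Pos_add_kids (R : Finset ℕ) (M : Multiset ℕ) (n : ℕ) (w : ℕ) (a : List ℕ) :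
    Pos W c R M n + (kids (.big w a) : Multiset L)
      = Pos W c R (M + (a : Multiset ℕ)) (n + (w + 1 - a.length)) := by
  unfold Pos kids
  rw [← Multiset.coe_add, Multiset.coe_replicate, Multiset.map_add, Multiset.replicate_add,
    Multiset.map_coe]
  abel

theorem card_PR (R : Finset ℕ) : (PR W c R).card = 2 * R.card := by
  unfold PR
  rw [Multiset.card_sum]
  simp [mul_comm]

theorem card_Pos (R : Finset ℕ) (M : Multiset ℕ) (n : ℕ) :
    (Pos W c R M n).card = 2 * R.card + M.card + n := by
  unfold Pos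
  rw [Multiset.card_add, Multiset.card_add, card_PR, Multiset.card_map, Multiset.card_replicate]
  omega

theorem mem_PR {R : Finset ℕ} {l : L} :
    l ∈ PR W c R ↔ ∃ i ∈ R, ∃ b, l = .big (W i) (c i b) := by
  unfold PR
  rw [Multiset.mem_sum]
  refine exists_congr fun i => and_congr Iff.rfl ?_
  simp only [Multiset.insert_eq_cons, Multiset.mem_cons, Multiset.mem_singleton, Bool.exists_bool]
  tauto

theorem mem_Pos {R : Finset ℕ} {M : Multiset ℕ} {n : ℕ} {l : L} :
    l ∈ Pos W c R M n ↔ (∃ i ∈ R, ∃ b, l = .big (W i) (c i b)) ∨ (∃ x ∈ M, l = .sw x) ∨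
      (n ≠ 0 ∧ l = .k2) := by
  unfold Pos
  rw [Multiset.mem_add, Multiset.mem_add, mem_PR, Multiset.mem_map, Multiset.mem_replicate]
  refine or_congr Iff.rfl (or_congr (exists_congr fun x => and_congr Iff.rfl eq_comm) Iff.rfl)

theorem cont_erase {R : Finset ℕ} {i : ℕ} (hi : i ∈ R) (b : Bool) (ch : ℕ → Bool) :
    cont c R (Function.update ch i b) = (c i b : Multiset ℕ) + cont c (R.erase i) ch := by
  unfold cont
  rw [← Finset.add_sum_erase R _ hi, Function.update_self]
  congr 1
  refine Finset.sum_congr rfl fun j hj => ?_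
  rw [Function.update_of_ne (Finset.ne_of_mem_erase hj)]

/-- The conditions on the contents. -/
structure Good (W : ℕ → ℕ) (c : ℕ → Bool → List ℕ) (B : ℕ) (R : Finset ℕ) (M : Multiset ℕ) :
    Prop where
  len : ∀ i ∈ R, ∀ b, (c i b).length ≤ W i + 1
  bM : ∀ x ∈ M, x ≤ B
  bR : ∀ i ∈ R, ∀ b, ∀ x ∈ c i b, x ≤ B
  big : ∀ i ∈ R, ∀ ch, (M + cont c R ch).sum ≤ W i

theorem Good.sub {B : ℕ} {R : Finset ℕ} {M : Multiset ℕ} (h : Good W c B R M) (x : ℕ) :
    Good W c B R (M.erase x) := by
  refine ⟨h.len, fun y hy => h.bM y (Multiset.mem_of_mem_erase hy), h.bR, fun i hi ch => ?_⟩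
  refine le_trans ?_ (h.big i hi ch)
  rw [Multiset.sum_add, Multiset.sum_add]
  refine Nat.add_le_add_right ?_ _
  obtain ⟨t, ht⟩ := Multiset.le_iff_exists_add.mp (Multiset.erase_le x M)
  conv_rhs => rw [ht]
  rw [Multiset.sum_add]
  omega

theorem Good.next {B : ℕ} {R : Finset ℕ} {M : Multiset ℕ} (h : Good W c B R M) {i : ℕ}
    (hi : i ∈ R) (b : Bool) : Good W c B (R.erase i) (M + (c i b : Multiset ℕ)) := by
  refine ⟨fun j hj => h.len j (Finset.mem_of_mem_erase hj), fun y hy => ?_,
    fun j hj => h.bR j (Finset.mem_of_mem_erase hj), fun j hj ch => ?_⟩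
  · rcases Multiset.mem_add.mp hy with hy | hy
    · exact h.bM y hy
    · exact h.bR i hi b y hy
  · have := h.big j (Finset.mem_of_mem_erase hj) (Function.update ch i b)
    rwa [cont_erase hi, ← add_assoc] at this

theorem Good.drop {B : ℕ} {R : Finset ℕ} {M : Multiset ℕ} (h : Good W c B R M) (i : ℕ) :
    Good W c B (R.erase i) M := by
  by_cases hi : i ∈ R
  · refine ⟨fun j hj => h.len j (Finset.mem_of_mem_erase hj), h.bM,
      fun j hj => h.bR j (Finset.mem_of_mem_erase hj), fun j hj ch => ?_⟩
    have := h.big j (Finset.mem_of_mem_erase hj) (Function.update ch i true)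
    rw [cont_erase hi, ← add_assoc] at this
    rw [Multiset.sum_add] at this ⊢
    rw [Multiset.sum_add] at this
    omega
  · rwa [Finset.erase_eq_of_notMem hi]

theorem sum_erase {R : Finset ℕ} {i : ℕ} (hi : i ∈ R) :
    ∑ j ∈ R, W j = W i + ∑ j ∈ R.erase i, W j := (Finset.add_sum_erase R W hi).symm

theorem card_erase' {R : Finset ℕ} {i : ℕ} (hi : i ∈ R) : R.card = (R.erase i).card + 1 := by
  rw [Finset.card_erase_add_one hi]

/-- The three kinds of positions in the strategy of Dominator. -/
def US (W : ℕ → ℕ) (c : ℕ → Bool → List ℕ) (B k : ℕ) : Prop :=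
  ∀ (R : Finset ℕ) (M : Multiset ℕ) (n v : ℕ), Good W c B R M →
    (∀ ch, up B (M + cont c R ch) ≤ v) →
    (Pos W c R M n).card + ∑ i ∈ R, W i + v ≤ k → AS k (Pos W c R M n)

def UD (W : ℕ → ℕ) (c : ℕ → Bool → List ℕ) (B k : ℕ) : Prop :=
  ∀ (R : Finset ℕ) (M : Multiset ℕ) (n v : ℕ), Good W c B R M →
    (∀ ch, dn B (M + cont c R ch) ≤ v) →
    (Pos W c R M n).card + ∑ i ∈ R, W i + v ≤ k → AD k (Pos W c R M n)

def UL (W : ℕ → ℕ) (c : ℕ → Bool → List ℕ) (B k : ℕ) : Prop :=
  ∀ (i : ℕ) (b : Bool) (R : Finset ℕ) (M : Multiset ℕ) (n v : ℕ),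
    Good W c B R (M + (c i b : Multiset ℕ)) → Good W c B R M → (c i b).length ≤ W i + 1 →
    (∀ ch, (M + (c i b : Multiset ℕ) + cont c R ch).sum ≤ W i) →
    (∀ ch, dn B (M + (c i b : Multiset ℕ) + cont c R ch) ≤ v) →
    (Pos W c R M n).card + 1 + ∑ i ∈ R, W i + W i + v ≤ k →
      AS k (.big (W i) (c i b) ::ₘ Pos W c R M n)

theorem UD_zero {B : ℕ} : UD W c B 0 := by
  intro R M n v _ _ hk
  have : (Pos W c R M n).card = 0 := by omega
  exact Multiset.card_eq_zero.mp this

theorem UD_succ {B k : ℕ} (hS : US W c B k) (hL : UL W c B k) : UD W c B (k + 1) := by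
  intro R M n v hG hv hk
  rcases Finset.eq_empty_or_nonempty R with rfl | ⟨i, hi⟩
  · rcases eq_or_ne M 0 with rfl | hM
    · cases n with
      | zero => exact Or.inl rfl
      | succ n =>
        refine Or.inr ⟨.k2, ?_, ?_⟩
        · rw [Pos_k2]; exact Multiset.mem_cons_self _ _
        · rw [Pos_k2, Multiset.erase_cons_head]
          refine hS ∅ 0 n v hG (fun ch => ?_) ?_
          · have : (0 : Multiset ℕ) + cont c ∅ ch = 0 := by simp [cont]
            rw [this, up_zero]
            omega
          · rw [card_Pos] at hk ⊢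
            omega
    · obtain ⟨x, hx, hmax⟩ : ∃ x ∈ M, ∀ y ∈ M, y ≤ x := by
        obtain ⟨l, hl, h⟩ := Finset.exists_max_image M.toFinset id
          (by rw [Multiset.toFinset_nonempty]; exact hM)
        exact ⟨l, Multiset.mem_toFinset.mp hl, fun l' hl' => h l' (Multiset.mem_toFinset.mpr hl')⟩
      refine Or.inr ⟨.sw x, ?_, ?_⟩
      · rw [Pos_sw _ hx]; exact Multiset.mem_cons_self _ _
      · rw [Pos_sw _ hx, Multiset.erase_cons_head]
        refine hS ∅ (M.erase x) n v (hG.sub x) (fun ch => ?_) ?_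
        · have h1 := hv ch
          have e : cont c ∅ ch = 0 := by simp [cont]
          rw [e, add_zero] at h1 ⊢
          rw [← Multiset.cons_erase hx, dn_cons_max B x _
            (fun y hy => hmax y (Multiset.mem_of_mem_erase hy))] at h1
          exact h1
        · rw [card_Pos] at hk ⊢
          have := Multiset.card_erase_add_one hx
          omega
  · refine Or.inr ⟨.big (W i) (c i false), ?_, ?_⟩
    · rw [Pos_big hi false]; exact Multiset.mem_cons_self _ _
    · rw [Pos_big hi false, Multiset.erase_cons_head]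
      refine hL i true (R.erase i) M n v (hG.next hi true) (hG.drop i) (hG.len i hi true)
        (fun ch => ?_) (fun ch => ?_) ?_
      · have := hG.big i hi (Function.update ch i true)
        rwa [cont_erase hi, ← add_assoc] at this
      · have := hv (Function.update ch i true)
        rwa [cont_erase hi, ← add_assoc] at this
      · rw [card_Pos] at hk ⊢
        rw [sum_erase hi, card_erase' hi] at hk
        omega

theorem kids_k2 : kids .k2 = [.leaf] := rfl

/-- Dominator's answer to a move in a single edge. -/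
theorem answer_k2 {k : ℕ} {G : Multiset L} (h : AS k G) :
    AD (k + 1) (G + (kids .k2 : Multiset L)) := by
  refine Or.inr ⟨.leaf, ?_, ?_⟩
  · rw [kids_k2, Multiset.mem_add]
    exact Or.inr (by simp)
  · have : (G + (kids .k2 : Multiset L)) = .leaf ::ₘ G := by
      rw [kids_k2, Multiset.coe_singleton, Multiset.add_comm]
      rfl
    rw [this, Multiset.erase_cons_head]
    exact h

theorem kids_big_ne (w : ℕ) {a : List ℕ} (ha : a.length ≤ w + 1) : kids (.big w a) ≠ [] := by
  intro h
  have := congrArg List.length h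
  simp only [kids, List.length_append, List.length_map, List.length_replicate,
    List.length_nil] at this
  omega

theorem US_of {B k : ℕ} (hD : UD W c B k) (hS : ∀ k', k' + 1 = k → US W c B k') : US W c B k := by
  intro R M n v hG hv hk
  by_cases h0 : Pos W c R M n = 0
  · exact Or.inl h0
  right
  intro l hl
  have hpos : 0 < (Pos W c R M n).card := Multiset.card_pos.mpr h0
  obtain ⟨k', rfl⟩ : ∃ k', k = k' + 1 := ⟨k - 1, by omega⟩
  have hS' := hS k' rfl
  rcases mem_Pos.mp hl with ⟨i, hi, b, rfl⟩ | ⟨x, hx, rfl⟩ | ⟨hn, rfl⟩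
  · refine ⟨kids_big_ne _ (hG.len i hi b), ?_⟩
    rw [Pos_big hi b, Multiset.erase_cons_head, Multiset.cons_add, Pos_add_kids]
    refine Or.inr ⟨.big (W i) (c i !b), Multiset.mem_cons_self _ _, ?_⟩
    rw [Multiset.erase_cons_head]
    refine hS' _ _ _ v (hG.next hi b) (fun ch => ?_) ?_
    · have := hv (Function.update ch i b)
      rwa [cont_erase hi, ← add_assoc] at this
    · rw [card_Pos] at hk ⊢
      rw [sum_erase hi, card_erase' hi] at hk
      rw [Multiset.card_add, Multiset.coe_card]
      have := hG.len i hi b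
      omega
  · refine ⟨by simp [kids], ?_⟩
    have h1 := take_le B x (M.erase x + cont c R fun _ => true)
    have hxB := hG.bM x hx
    have hx2 : ∀ ch, x + dn B (M.erase x + cont c R ch) ≤ v := by
      intro ch
      have h1 := take_le B x (M.erase x + cont c R ch)
      rw [← Multiset.cons_add, Multiset.cons_erase hx, min_eq_left hxB] at h1
      exact h1.trans (hv ch)
    rw [Pos_sw _ hx, Multiset.erase_cons_head]
    show AD _ (Pos W c R (M.erase x) n + (List.replicate (x + 1) L.k2 : Multiset L))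
    rw [Pos_add_k2]
    refine hD _ _ _ (v - x) (hG.sub x) (fun ch => ?_) ?_
    · have := hx2 ch
      omega
    · rw [card_Pos] at hk ⊢
      have h2 := Multiset.card_erase_add_one hx
      have h3 := hx2 (fun _ => true)
      omega
  · refine ⟨by simp [kids], ?_⟩
    obtain ⟨m, rfl⟩ : ∃ m, n = m + 1 := ⟨n - 1, by omega⟩
    rw [Pos_k2, Multiset.erase_cons_head]
    refine answer_k2 (hS' R M m v hG hv ?_)
    rw [card_Pos] at hk ⊢
    omega

theorem UL_of {B k : ℕ} (hD : UD W c B k) (hS : ∀ k', k' + 1 = k → US W c B k')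
    (hL : ∀ k', k' + 1 = k → UL W c B k') : UL W c B k := by
  intro i b R M n v hG hG' hlen hZ hv hk
  right
  intro l hl
  obtain ⟨k', rfl⟩ : ∃ k', k = k' + 1 := ⟨k - 1, by omega⟩
  have hS' := hS k' rfl
  have hL' := hL k' rfl
  by_cases hl0 : l = .big (W i) (c i b)
  · subst hl0
    refine ⟨kids_big_ne _ hlen, ?_⟩
    rw [Multiset.erase_cons_head, Pos_add_kids]
    refine hD _ _ _ v hG hv ?_
    rw [card_Pos] at hk ⊢
    rw [Multiset.card_add, Multiset.coe_card]
    omega
  rw [Multiset.erase_cons_tail _ (fun e => hl0 e.symm)]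
  have hl1 : l ∈ Pos W c R M n := (Multiset.mem_cons.mp hl).resolve_left hl0
  rcases mem_Pos.mp hl1 with ⟨j, hj, b', rfl⟩ | ⟨x, hx, rfl⟩ | ⟨hn, rfl⟩
  · refine ⟨kids_big_ne _ (hG.len j hj b'), ?_⟩
    rw [Pos_big hj b', Multiset.erase_cons_head, Multiset.cons_swap, Multiset.cons_add]
    refine Or.inr ⟨.big (W j) (c j !b'), Multiset.mem_cons_self _ _, ?_⟩
    rw [Multiset.erase_cons_head, Multiset.cons_add, Pos_add_kids]
    have e : ∀ E : Multiset ℕ, M + (c j b' : Multiset ℕ) + (c i b : Multiset ℕ) + E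
        = M + (c i b : Multiset ℕ) + ((c j b' : Multiset ℕ) + E) := by
      intro E; abel
    refine hL' i b _ _ _ v ?_ (hG'.next hj b') hlen (fun ch => ?_) (fun ch => ?_) ?_
    · have h1 := hG.next hj b'
      have e' : M + (c j b' : Multiset ℕ) + (c i b : Multiset ℕ)
        = M + (c i b : Multiset ℕ) + (c j b' : Multiset ℕ) := by abel
      rwa [e']
    · have := hZ (Function.update ch j b')
      rwa [cont_erase hj, ← e] at this
    · have := hv (Function.update ch j b')
      rwa [cont_erase hj, ← e] at this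
    · rw [card_Pos] at hk ⊢
      rw [sum_erase hj, card_erase' hj] at hk
      rw [Multiset.card_add, Multiset.coe_card]
      have := hG.len j hj b'
      omega
  · refine ⟨by simp [kids], ?_⟩
    rw [Pos_sw _ hx, Multiset.erase_cons_head, Multiset.cons_add]
    show AD _ (_ ::ₘ (Pos W c R (M.erase x) n + (List.replicate (x + 1) L.k2 : Multiset L)))
    rw [Pos_add_k2]
    refine Or.inr ⟨.big (W i) (c i b), Multiset.mem_cons_self _ _, ?_⟩
    rw [Multiset.erase_cons_head]
    have hx2 : ∀ ch, x + up B (M.erase x + cont c R ch) ≤ W i := by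
      intro ch
      refine le_trans (Nat.add_le_add_left (up_le_sum B _) x) (le_trans ?_ (hZ ch))
      conv_rhs => rw [← Multiset.cons_erase hx]
      rw [Multiset.sum_add, Multiset.sum_add, Multiset.sum_add, Multiset.sum_cons]
      omega
    refine hS' _ _ _ (W i - x + v) (hG'.sub x) (fun ch => ?_) ?_
    · have := hx2 ch
      omega
    · rw [card_Pos] at hk ⊢
      have h2 := Multiset.card_erase_add_one hx
      have h3 := hx2 (fun _ => true)
      omega
  · refine ⟨by simp [kids], ?_⟩
    obtain ⟨m, rfl⟩ : ∃ m, n = m + 1 := ⟨n - 1, by omega⟩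
    rw [Pos_k2, Multiset.erase_cons_head]
    refine answer_k2 (hL' i b R M m v hG hG' hlen hZ hv ?_)
    rw [card_Pos] at hk ⊢
    omega

theorem U_all (B k : ℕ) : UD W c B k ∧ US W c B k ∧ UL W c B k := by
  induction k with
  | zero =>
    exact ⟨UD_zero, US_of UD_zero (fun k' h => absurd h (by omega)),
      UL_of UD_zero (fun k' h => absurd h (by omega)) (fun k' h => absurd h (by omega))⟩
  | succ k ih =>
    obtain ⟨-, hS, hL⟩ := ih
    have hD := UD_succ hS hL
    refine ⟨hD, US_of hD (fun k' h => ?_), UL_of hD (fun k' h => ?_) (fun k' h => ?_)⟩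
    · have : k' = k := by omega
      rwa [this]
    · have : k' = k := by omega
      rwa [this]
    · have : k' = k := by omega
      rwa [this]

end Pairs

end Pool.Agent.Helper7.Cog
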