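import Mathlib
import Pool.Agent.Helper86.ZDomInstInj

/-!
The Maker-Breaker domination game, the Maker-Breaker domination numbers, cographs and the decision
problems.
-/

set_option autoImplicit false

namespace Pool.Agent.Helper7.Cog

open Computability

section Game

variable {V : Type} [DecidableEq V] (G : SimpleGraph V)

/-- `D` is a dominating set of `G`: every vertex lies in the closed neighbourhood of a vertex
of `D`. -/
def Dominating (D : Finset V) : Prop := ∀ v, ∃ u ∈ D, u = v ∨ G.Adj u v

/-- Staller is about to move, Dominator has picked the set `D` and Staller the set `S`, and `P` is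
the set of positions (with Dominator to move) that are good for Dominator: either `D` is dominating
already, or there is a vertex left to pick and each possible pick `w` of Staller leads to a good
position. -/
def StallerMoves (P : Finset V → Finset V → Prop) (D S : Finset V) : Prop :=
  Dominating G D ∨
    ((∃ w, w ∉ D ∧ w ∉ S) ∧ ∀ w, w ∉ D → w ∉ S → P D (insert w S))

/-- Dominator is about to move, he has picked `D` and Staller has picked `S`, and Dominator can make
his picked set dominating within at most `k` further moves of his own against every play of
Staller. -/
def DomWins : ℕ → Finset V → Finset V → Prop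
  | 0, D, _ => Dominating G D
  | k + 1, D, S => Dominating G D ∨
      ∃ v, v ∉ D ∧ v ∉ S ∧ StallerMoves G (DomWins k) (insert v D) S

/-- The same with Staller to move. -/
def DomWinsS (k : ℕ) (D S : Finset V) : Prop := StallerMoves G (DomWins G k) D S

/-- The Maker-Breaker domination number `γ_MB(G)`: the least `k` such that Dominator, moving first,
can make his picked set dominating within at most `k` moves of his own; `⊤` if there is no such
`k`. -/
noncomputable def gammaMB : ℕ∞ := sInf {c | ∃ k : ℕ, c = k ∧ DomWins G k ∅ ∅}

/-- The Staller-start Maker-Breaker domination number `γ_MB'(G)`. -/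
noncomputable def gammaMBS : ℕ∞ := sInf {c | ∃ k : ℕ, c = k ∧ DomWinsS G k ∅ ∅}

end Game

/-- A cograph: no induced path on four vertices. -/
def IsCograph {V : Type} (G : SimpleGraph V) : Prop := IsEmpty (SimpleGraph.pathGraph 4 ↪g G)

/-- An instance: a finite simple graph on `{0, …, n-1}` and a number `k`. -/
structure Inst where
  /-- the number of vertices -/
  n : ℕ
  /-- the graph -/
  G : SimpleGraph (Fin n)
  /-- the number -/
  k : ℕ

/-- The string `1^n 0` followed by the `n²` bits of the adjacency matrix and the binary digits
of `k`. -/
noncomputable def Inst.bits (I : Inst) : List Bool :=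
  List.replicate I.n true ++ false :: (Helper86.ZDom.adjBits I.G ++ encodeNat I.k)

/-- The decision problem `γ_MB(G) ≥ k` for cographs `G`. -/
def DomFirst : Set Inst := {I | IsCograph I.G ∧ (I.k : ℕ∞) ≤ gammaMB I.G}

/-- The decision problem `γ_MB'(G) ≥ k` for cographs `G`. -/
def StallerFirst : Set Inst := {I | IsCograph I.G ∧ (I.k : ℕ∞) ≤ gammaMBS I.G}

end Pool.Agent.Helper7.Cog
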