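import Pool.Agent.Helper7.Cog.PolyRed

/-!
NP-hardness of the Maker-Breaker domination numbers of cographs.
-/

set_option autoImplicit false

namespace Pool.Agent.Helper7.Cog

open Pool.Agent.Helper86 Computability Turing

/-- NP-hardness of the decision problem `A` restricted to the instances in `P`: every problem in NP
has a polynomial time many-one reduction to `A` that produces only instances in `P`. -/
def NPHardOn {α : Type} (enc : Encoding α Bool) (P A : Set α) : Prop :=
  ∀ L : Set (List Bool), NP.InNP L → ∃ f : List Bool → α,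
    Nonempty (TM2ComputableInPolyTime (encodingList Bool).encode enc.encode f) ∧
    (∀ x, f x ∈ P) ∧ ∀ x, x ∈ L ↔ f x ∈ A

theorem npHardOn_of_sat {α : Type} (enc : Encoding α Bool) (P A : Set α)
    (f : List (List (Bool × ℕ)) → α) (F : List (List (Bool × ℕ)) → List Bool) (hF : PT.Poly F)
    (hFf : ∀ φ, F φ = enc.encode (f φ)) (hP : ∀ φ, f φ ∈ P) (hA : ∀ φ, PT.Sat φ ↔ f φ ∈ A) :
    NPHardOn enc P A := by
  intro L hL
  obtain ⟨Φ, hΦ, hΦ'⟩ := NP.cook_levin hL
  refine ⟨fun x => f (Φ x), ?_, fun x => hP _, fun x => (hΦ' x).trans (hA _)⟩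
  exact PT.Poly.toTM2 (F := fun x => F (Φ x)) (hF.comp hΦ) (fun x => hFf (Φ x))

theorem cmp_of_adj (F : List L) {a b : Fin (verts F).length} (h : (gr F).Adj a b) :
    Cmp (ple F) a b := h.2

theorem not_cmp (F : List L) {a b : Fin (verts F).length} (hne : a ≠ b) (h : ¬ (gr F).Adj a b) :
    ¬ Cmp (ple F) a b := fun hc => h ⟨hne, hc⟩

theorem middle (F : List L) {a b c : Fin (verts F).length} (h1 : Cmp (ple F) a b)
    (h2 : Cmp (ple F) b c) (h3 : ¬ Cmp (ple F) a c) : ple F b a ∧ ple F b c := by
  have hF := isForest F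
  have hba : ple F b a := by
    rcases h1 with h | h
    · rcases h2 with h' | h'
      · exact absurd (Or.inl (hF.trans _ _ _ h h')) h3
      · exact absurd (hF.tree _ _ _ h h') h3
    · exact h
  refine ⟨hba, ?_⟩
  rcases h2 with h | h
  · exact h
  · exact absurd (Or.inr (hF.trans _ _ _ h hba)) h3

/-- The graphs of forests have no induced cycle of length four. -/
theorem noC4_gr (F : List L) : IsEmpty (SimpleGraph.cycleGraph 4 ↪g gr F) := by
  constructor
  intro e
  have hF := isForest F
  have hadj : ∀ i j : Fin 4, (gr F).Adj (e i) (e j) ↔ (SimpleGraph.cycleGraph 4).Adj i j :=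
    fun i j => e.map_adj_iff
  have h01 := cmp_of_adj F ((hadj 0 1).mpr (by decide))
  have h12 := cmp_of_adj F ((hadj 1 2).mpr (by decide))
  have h23 := cmp_of_adj F ((hadj 2 3).mpr (by decide))
  have n02 := not_cmp F (fun h => absurd (e.injective h) (by decide))
    (fun h => absurd ((hadj 0 2).mp h) (by decide))
  have n13 := not_cmp F (fun h => absurd (e.injective h) (by decide))
    (fun h => absurd ((hadj 1 3).mp h) (by decide))
  have h4 := (middle F h01 h12 n02).2
  have h5 := (middle F h12 h23 n13).1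
  exact absurd (e.injective (hF.antisymm _ _ h4 h5)) (by decide)

/-- The graphs of forests have no clique with five vertices. -/
theorem cliqueFree_gr (F : List L) : (gr F).CliqueFree 5 := by
  classical
  intro s hs
  obtain ⟨hc, hcard⟩ := SimpleGraph.isNClique_iff _ |>.mp hs
  have h1 : ∀ v : Fin (verts F).length, (verts F)[v].length ∈ Finset.Icc 1 4 := by
    intro v
    obtain ⟨l, hl⟩ := (mem_verts F (verts F)[v]).mp (List.getElem_mem _)
    rw [Finset.mem_Icc]
    cases hv : (verts F)[v] with
    | nil => rw [hv] at hl; cases hl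
    | cons j p =>
      rw [hv] at hl
      change (F[j]?.bind fun l => follow l p) = some l at hl
      rw [Option.bind_eq_some_iff] at hl
      obtain ⟨l', -, h2⟩ := hl
      have h3 := follow_dep p l' l h2
      have h4 : dep l' ≤ 3 := by cases l' <;> simp [dep]
      rw [List.length_cons]
      omega
  have h2 : s.card ≤ (Finset.Icc 1 4).card := by
    refine Finset.card_le_card_of_injOn (fun v => (verts F)[v].length) (fun v _ => h1 v) ?_
    intro v hv w hw hvw
    by_contra hne
    have h3 := (hc hv hw hne).2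
    rcases h3 with h3 | h3
    · exact hne (verts_inj F (h3.eq_of_length hvw))
    · exact hne (verts_inj F (h3.eq_of_length hvw.symm)).symm
  rw [hcard] at h2
  simp at h2

theorem finite_S (φ : List (List (Bool × ℕ))) : gammaMBS (gr (FF φ)) ≠ ⊤ := by
  have h : DomWinsS (gr (FF φ)) (2 * nv φ + ∑ i ∈ Finset.range (nv φ), WW φ i
      + (Z2 (xors φ) + TT φ)) ∅ ∅ := by
    rw [stWins_iff]
    refine AS_upper (B := 2 * (xors φ).length) (fun i hi b => ?_) (fun i _ b => cts_bound _ i b)
      (fun i hi ν => ?_) (fun ν => ?_)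
    · have h1 := cts_length (xors φ) i b
      have h2 := KK_le_WW φ hi
      unfold KK at h2
      omega
    · rw [content_sum _ _ _ (xors_var φ)]
      have h2 := KK_le_WW φ hi
      unfold KK at h2
      omega
    · rw [up_content _ _ _ (xors_var φ)]
      have := score_xors_le ν φ
      omega
  intro htop
  have h2 : gammaMBS (gr (FF φ)) ≤ _ := sInf_le ⟨_, rfl, h⟩
  rw [htop, top_le_iff] at h2
  exact ENat.coe_ne_top _ h2

theorem finite_D (φ : List (List (Bool × ℕ))) : gammaMB (gr (FD φ)) ≠ ⊤ := by
  have h : DomWins (gr (FD φ)) (1 + (2 * nv φ + ∑ i ∈ Finset.range (nv φ), WW φ i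
      + (Z2 (xors φ) + TT φ))) ∅ ∅ := by
    rw [domWins_iff]
    refine AD_upper (B := 2 * (xors φ).length) (fun i hi b => ?_) (fun i _ b => cts_bound _ i b)
      (fun i hi ν => ?_) (fun ν => ?_) _
    · have h1 := cts_length (xors φ) i b
      have h2 := KK_le_WW φ hi
      unfold KK at h2
      omega
    · rw [content_sum _ _ _ (xors_var φ)]
      have h2 := KK_le_WW φ hi
      unfold KK at h2
      omega
    · rw [up_content _ _ _ (xors_var φ)]
      have := score_xors_le ν φ
      omega
  intro htop
  have h2 : gammaMB (gr (FD φ)) ≤ _ := sInf_le ⟨_, rfl, h⟩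
  rw [htop, top_le_iff] at h2
  exact ENat.coe_ne_top _ h2

/-- Graphs without induced path on four vertices (cographs), without induced cycle on four vertices
and without clique on five vertices. -/
def Small {V : Type} (G : SimpleGraph V) : Prop :=
  IsCograph G ∧ IsEmpty (SimpleGraph.cycleGraph 4 ↪g G) ∧ G.CliqueFree 5

theorem small_gr (F : List L) : Small (gr F) := ⟨isCograph_gr F, noC4_gr F, cliqueFree_gr F⟩

theorem hard_S : NPHardOn instEnc {I | Small I.G ∧ gammaMBS I.G ≠ ⊤}
    {I | (I.k : ℕ∞) ≤ gammaMBS I.G} :=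
  npHardOn_of_sat instEnc _ _ (fun φ => finst (FF φ) (kS φ))
    (fun φ => istring (FF φ) (kS φ)) (poly_istring poly_FF poly_kS)
    (fun φ => (bits_finst _ _).symm) (fun φ => ⟨small_gr _, finite_S φ⟩) (fun φ => sat_iff_S φ)

theorem hard_D : NPHardOn instEnc {I | Small I.G ∧ gammaMB I.G ≠ ⊤}
    {I | (I.k : ℕ∞) ≤ gammaMB I.G} :=
  npHardOn_of_sat instEnc _ _ (fun φ => finst (FD φ) (kD φ))
    (fun φ => istring (FD φ) (kD φ)) (poly_istring poly_FD poly_kD)
    (fun φ => (bits_finst _ _).symm) (fun φ => ⟨small_gr _, finite_D φ⟩) (fun φ => sat_iff_D φ)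

end Pool.Agent.Helper7.Cog
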