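import Pool.Agent.Helper7.Cog.Game
import Pool.Agent.Helper7.Cog.Abs

/-!
The domination game on the comparability graph of a rooted forest is the pruning game.
-/

set_option autoImplicit false

namespace Pool.Agent.Helper7.Cog

open Classical in
/-- The elements covering `v`. -/
noncomputable def ch {V : Type} [Fintype V] (le : V → V → Prop) (v : V) : Finset V :=
  Finset.univ.filter fun c => le v c ∧ v ≠ c ∧ ∀ x, le v x → le x c → x = v ∨ x = c

/-- A finite rooted forest, `le a b` meaning that `a` is an ancestor of `b` (or equal to `b`),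
whose subtrees have the kinds `τ`. -/
structure IsForest {V : Type} [Fintype V] (le : V → V → Prop) (τ : V → L) : Prop where
  refl : ∀ a, le a a
  trans : ∀ a b c, le a b → le b c → le a c
  antisymm : ∀ a b, le a b → le b a → a = b
  tree : ∀ a b c, le a c → le b c → le a b ∨ le b a
  kids : ∀ v, (ch le v).val.map τ = (kids (τ v) : Multiset L)

variable {V : Type} [Fintype V] [DecidableEq V] {le : V → V → Prop} {τ : V → L}

/-- Comparability. -/
def Cmp (le : V → V → Prop) (a u : V) : Prop := le a u ∨ le u a

open Classical in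
/-- The minimal elements of `X`. -/
noncomputable def mins (le : V → V → Prop) (X : Finset V) : Finset V :=
  X.filter fun x => ∀ y ∈ X, le y x → y = x

/-- The kinds of the trees of the position `X`. -/
noncomputable def lab (le : V → V → Prop) (τ : V → L) (X : Finset V) : Multiset L :=
  (mins le X).val.map τ

theorem mem_mins {X : Finset V} {x : V} : x ∈ mins le X ↔ x ∈ X ∧ ∀ y ∈ X, le y x → y = x := by
  classical
  unfold mins
  rw [Finset.mem_filter]

omit [DecidableEq V] in
theorem mem_ch {v c : V} :
    c ∈ ch le v ↔ le v c ∧ v ≠ c ∧ ∀ x, le v x → le x c → x = v ∨ x = c := by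
  classical
  unfold ch
  simp

variable (h : IsForest le τ)
include h

/-- Below every element of a nonempty set there is a minimal element. -/
theorem exists_min (X : Finset V) {a : V} (ha : a ∈ X) : ∃ r ∈ mins le X, le r a := by
  classical
  induction hn : (X.filter fun y => le y a).card using Nat.strong_induction_on generalizing a with
  | _ n ih =>
    by_cases hm : ∀ y ∈ X, le y a → y = a
    · exact ⟨a, mem_mins.mpr ⟨ha, hm⟩, h.refl a⟩
    · push Not at hm
      obtain ⟨y, hy, hya, hne⟩ := hm
      have hlt : (X.filter fun z => le z y).card < n := by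
        rw [← hn]
        refine Finset.card_lt_card ?_
        rw [Finset.ssubset_iff_of_subset]
        · refine ⟨a, Finset.mem_filter.mpr ⟨ha, h.refl a⟩, fun h' => ?_⟩
          exact hne (h.antisymm _ _ hya (Finset.mem_filter.mp h').2)
        · intro z hz
          rw [Finset.mem_filter] at hz ⊢
          exact ⟨hz.1, h.trans _ _ _ hz.2 hya⟩
      obtain ⟨r, hr, hry⟩ := ih _ hlt hy rfl
      exact ⟨r, hr, h.trans _ _ _ hry hya⟩

/-- Between `r` and a larger element there is a child of `r`. -/
theorem exists_child {r a : V} (hra : le r a) (hne : r ≠ a) : ∃ c ∈ ch le r, le c a := by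
  classical
  set X : Finset V := Finset.univ.filter fun y => le r y ∧ r ≠ y ∧ le y a with hX
  have haX : a ∈ X := by simp [hX, hra, hne, h.refl a]
  obtain ⟨c, hc, hca⟩ := exists_min h X haX
  rw [mem_mins] at hc
  obtain ⟨hc1, hc2⟩ := hc
  simp only [hX, Finset.mem_filter, Finset.mem_univ, true_and] at hc1 hc2
  refine ⟨c, mem_ch.mpr ⟨hc1.1, hc1.2.1, fun x hx hxc => ?_⟩, hca⟩
  by_cases hxr : x = r
  · exact Or.inl hxr
  · exact Or.inr (hc2 x ⟨hx, fun e => hxr e.symm, h.trans _ _ _ hxc hca⟩ hxc)

theorem cmp_root {r a u : V} (hra : le r a) (hau : Cmp le a u) : Cmp le r u := by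
  rcases hau with hau | hau
  · exact Or.inl (h.trans _ _ _ hra hau)
  · exact h.tree _ _ _ hra hau

theorem lab_eq_zero {X : Finset V} : lab le τ X = 0 ↔ X = ∅ := by
  constructor
  · intro h0
    rw [Finset.eq_empty_iff_forall_notMem]
    intro a ha
    obtain ⟨r, hr, -⟩ := exists_min h X ha
    have : τ r ∈ lab le τ X := Multiset.mem_map_of_mem τ hr
    rw [h0] at this
    exact Multiset.notMem_zero _ this
  · rintro rfl
    have : mins le (∅ : Finset V) = ∅ := by
      rw [Finset.eq_empty_iff_forall_notMem]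
      intro a ha
      exact Finset.notMem_empty a (mem_mins.mp ha).1
    unfold lab
    rw [this]
    rfl

theorem erase_upper {X : Finset V} (hX : ∀ x ∈ X, ∀ y, le x y → y ∈ X) {r : V}
    (hr : r ∈ mins le X) : ∀ x ∈ X.erase r, ∀ y, le x y → y ∈ X.erase r := by
  intro x hx y hxy
  rw [Finset.mem_erase] at hx ⊢
  refine ⟨?_, hX x hx.2 y hxy⟩
  rintro rfl
  exact hx.1 ((mem_mins.mp hr).2 x hx.2 hxy)

omit [DecidableEq V] in
theorem lab_cons {s : Finset V} {r : V} (hr : r ∈ s) [DecidableEq V] :
    (s.val.map τ).erase (τ r) = (s.erase r).val.map τ := by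
  have h1 : s.val = r ::ₘ (s.erase r).val := by
    rw [Finset.erase_val, Multiset.cons_erase hr]
  conv_lhs => rw [h1]
  rw [Multiset.map_cons, Multiset.erase_cons_head]

/-- Staller's move. -/
theorem lab_erase {X : Finset V} (hX : ∀ x ∈ X, ∀ y, le x y → y ∈ X) {r : V}
    (hr : r ∈ mins le X) :
    lab le τ (X.erase r) = (lab le τ X).erase (τ r) + (kids (τ r) : Multiset L) := by
  unfold lab
  rw [lab_cons h hr, ← h.kids r]
  have hrX := (mem_mins.mp hr).1
  have e : (mins le (X.erase r)) = (mins le X).erase r ∪ ch le r := by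
    ext x
    rw [Finset.mem_union, mem_mins, Finset.mem_erase, Finset.mem_erase, mem_mins, mem_ch]
    constructor
    · rintro ⟨⟨hxr, hxX⟩, hx⟩
      by_cases hrx : le r x
      · right
        refine ⟨hrx, fun e => hxr e.symm, fun y hy hyx => ?_⟩
        by_cases hyr : y = r
        · exact Or.inl hyr
        · exact Or.inr (hx y (Finset.mem_erase.mpr ⟨hyr, hX r hrX y hy⟩) hyx)
      · left
        refine ⟨hxr, hxX, fun y hy hyx => ?_⟩
        by_cases hyr : y = r
        · rw [hyr] at hyx
          exact absurd hyx hrx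
        · exact hx y (Finset.mem_erase.mpr ⟨hyr, hy⟩) hyx
    · rintro (⟨hxr, hxX, hx⟩ | ⟨hrx, hne, hx⟩)
      · exact ⟨⟨hxr, hxX⟩, fun y hy hyx => hx y (Finset.mem_of_mem_erase hy) hyx⟩
      · refine ⟨⟨fun e => hne e.symm, hX r hrX x hrx⟩, fun y hy hyx => ?_⟩
        rw [Finset.mem_erase] at hy
        rcases h.tree _ _ _ hrx hyx with h1 | h1
        · rcases hx y h1 hyx with h2 | h2
          · exact absurd h2 hy.1
          · exact h2
        · exact absurd ((mem_mins.mp hr).2 y hy.2 h1) hy.1
  have hdisj : Disjoint ((mins le X).erase r) (ch le r) := by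
    rw [Finset.disjoint_left]
    intro x hx hx'
    rw [Finset.mem_erase, mem_mins] at hx
    rw [mem_ch] at hx'
    exact hx'.2.1 (hx.2.2 r hrX hx'.1)
  rw [e, ← Finset.disjUnion_eq_union _ _ hdisj, Finset.disjUnion_val, Multiset.map_add]

open Classical in
/-- Dominator's move. -/
theorem lab_filter {X : Finset V} {r : V} (hr : r ∈ mins le X) :
    lab le τ (X.filter fun x => ¬ le r x) = (lab le τ X).erase (τ r) := by
  unfold lab
  rw [lab_cons h hr]
  have hrX := (mem_mins.mp hr).1
  congr 2
  ext x
  rw [mem_mins, Finset.mem_filter, Finset.mem_erase, mem_mins]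
  constructor
  · rintro ⟨⟨hxX, hrx⟩, hx⟩
    refine ⟨fun e => hrx (e ▸ h.refl r), hxX, fun y hy hyx => ?_⟩
    refine hx y (Finset.mem_filter.mpr ⟨hy, fun hry => hrx (h.trans _ _ _ hry hyx)⟩) hyx
  · rintro ⟨hxr, hxX, hx⟩
    refine ⟨⟨hxX, fun hrx => hxr (hx r hrX hrx).symm⟩, fun y hy hyx => ?_⟩
    exact hx y (Finset.mem_filter.mp hy).1 hyx

theorem ch_ne_of_kids {r : V} (hk : kids (τ r) ≠ []) : (ch le r).Nonempty := by
  rw [Finset.nonempty_iff_ne_empty]
  intro h0
  have := h.kids r
  rw [h0] at this
  exact hk (Multiset.coe_eq_zero _ |>.mp this.symm)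

theorem kids_ne_of_ch {r : V} (hk : (ch le r).Nonempty) : kids (τ r) ≠ [] := by
  intro h0
  have := h.kids r
  rw [h0] at this
  have h1 : (ch le r).val = 0 := Multiset.map_eq_zero.mp this
  rw [Finset.val_eq_zero] at h1
  rw [h1] at hk
  exact Finset.not_nonempty_empty hk

theorem conn_S (k : ℕ)
    (ih : ∀ X : Finset V, (∀ x ∈ X, ∀ y, le x y → y ∈ X) →
      (WD (Cmp le) k X (X : Set V) ↔ AD k (lab le τ X)))
    (X : Finset V) (hX : ∀ x ∈ X, ∀ y, le x y → y ∈ X) :
    WS (Cmp le) k X (X : Set V) ↔ AS k (lab le τ X) := by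
  unfold AS ASx
  rw [lab_eq_zero h]
  constructor
  · rintro (hw | ⟨-, hw⟩)
    · exact Or.inl (Finset.coe_eq_empty.mp hw)
    · right
      intro l hl
      obtain ⟨r, hr, rfl⟩ := Multiset.mem_map.mp hl
      have hr' : r ∈ mins le X := hr
      have hrX := (mem_mins.mp hr').1
      have h1 := hw r hrX
      constructor
      · refine kids_ne_of_ch h ?_
        by_contra hch
        refine (not_win (Cmp le) (u := r) k (X.erase r) (X : Set V) hrX (fun a ha hN => ?_)).1 h1
        rw [Finset.mem_erase] at ha
        rcases hN with hN | hN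
        · exact ha.1 ((mem_mins.mp hr').2 a ha.2 hN)
        · obtain ⟨c, hc, -⟩ := exists_child h hN (fun e => ha.1 e.symm)
          exact hch ⟨c, hc⟩
      · rw [← lab_erase h hX hr', ← ih _ (erase_upper h hX hr')]
        refine WD_sim (fun x => x) ⟨fun a ha => ha, fun c _ d _ e => e, fun u hu => ?_⟩ h1
        exact ⟨u, Finset.mem_of_mem_erase (Finset.mem_coe.mp hu), fun _ _ h => h⟩
  · rintro (hw | hw)
    · rw [hw]
      exact Or.inl Finset.coe_empty
    · rcases Finset.eq_empty_or_nonempty X with hX0 | hX0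
      · rw [hX0]
        exact Or.inl Finset.coe_empty
      refine Or.inr ⟨hX0, fun a ha => ?_⟩
      obtain ⟨r, hr, hra⟩ := exists_min h X ha
      have hrX := (mem_mins.mp hr).1
      obtain ⟨h1, h2⟩ := hw (τ r) (Multiset.mem_map_of_mem τ hr)
      rw [← lab_erase h hX hr, ← ih _ (erase_upper h hX hr)] at h2
      obtain ⟨c, hc⟩ := ch_ne_of_kids h h1
      rw [mem_ch] at hc
      have hcX : c ∈ X := hX r hrX c hc.1
      refine WD_sim (fun b => if b = a then r else b) ⟨fun b hb => ?_, fun b hb c hc e => ?_,
        fun u hu => ?_⟩ h2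
      · rw [Finset.mem_erase] at hb ⊢
        beta_reduce
        by_cases hba : b = a
        · rw [if_pos hba]
          exact ⟨fun e => hb.1 (hba.trans e.symm), hrX⟩
        · rw [if_neg hba]
          exact ⟨hba, hb.2⟩
      · rw [Finset.mem_coe, Finset.mem_erase] at hb hc
        beta_reduce at e
        by_cases hba : b = a <;> by_cases hca : c = a
        · rw [hba, hca]
        · rw [if_pos hba, if_neg hca] at e
          exact absurd e.symm hc.1
        · rw [if_neg hba, if_pos hca] at e
          exact absurd e hb.1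
        · rw [if_neg hba, if_neg hca] at e
          exact e
      · beta_reduce
        by_cases hur : u = r
        · subst hur
          refine ⟨c, Finset.mem_coe.mpr (Finset.mem_erase.mpr ⟨fun e => hc.2.1 e.symm, hcX⟩),
            fun b hb hN => ?_⟩
          by_cases hba : b = a
          · rw [if_pos hba]
            exact Or.inl (h.refl _)
          · rw [if_neg hba]
            exact (cmp_root h hc.1 (Or.symm hN)).symm
        · refine ⟨u, Finset.mem_coe.mpr (Finset.mem_erase.mpr ⟨hur, hu⟩), fun b hb hN => ?_⟩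
          by_cases hba : b = a
          · rw [if_pos hba]
            rw [hba] at hN
            exact cmp_root h hra hN
          · rw [if_neg hba]
            exact hN

open Classical in
theorem conn_kill (k : ℕ)
    (ih : ∀ X : Finset V, (∀ x ∈ X, ∀ y, le x y → y ∈ X) →
      (WS (Cmp le) k X (X : Set V) ↔ AS k (lab le τ X)))
    (X : Finset V) (hX : ∀ x ∈ X, ∀ y, le x y → y ∈ X) {r : V} (hr : r ∈ mins le X) :
    WS (Cmp le) k (X.erase r) ((X : Set V) \ {u | Cmp le r u}) ↔
      AS k ((lab le τ X).erase (τ r)) := by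
  have hrX := (mem_mins.mp hr).1
  have hup : ∀ x ∈ X.filter (fun x => ¬ le r x), ∀ y, le x y →
      y ∈ X.filter (fun x => ¬ le r x) := by
    intro x hx y hxy
    rw [Finset.mem_filter] at hx ⊢
    refine ⟨hX x hx.1 y hxy, fun hry => ?_⟩
    rcases h.tree _ _ _ hxy hry with h1 | h1
    · have := (mem_mins.mp hr).2 x hx.1 h1
      rw [this] at hx
      exact hx.2 (h.refl r)
    · exact hx.2 h1
  rw [← lab_filter h hr, ← ih _ hup]
  have e : ((X : Set V) \ {u | Cmp le r u}) = ((X.filter fun x => ¬ le r x : Finset V) : Set V) := by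
    ext u
    rw [Finset.mem_coe, Finset.mem_filter]
    constructor
    · rintro ⟨h1, h2⟩
      exact ⟨h1, fun h3 => h2 (Or.inl h3)⟩
    · rintro ⟨h1, h2⟩
      refine ⟨h1, ?_⟩
      rintro (h3 | h3)
      · exact h2 h3
      · have := (mem_mins.mp hr).2 u h1 h3
        rw [this] at h2
        exact h2 (h.refl r)
  rw [e]
  refine WS_dead ?_ ?_
  · intro x hx
    rw [Finset.mem_filter] at hx
    rw [Finset.mem_erase]
    exact ⟨fun e => hx.2 (e ▸ h.refl r), hx.1⟩
  · intro a ha ha' u hu hN
    rw [Finset.mem_erase] at ha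
    rw [Finset.mem_coe, Finset.mem_filter] at hu
    have hra : le r a := by
      by_contra h1
      exact ha' (Finset.mem_filter.mpr ⟨ha.2, h1⟩)
    rcases cmp_root h hra hN with h1 | h1
    · exact hu.2 h1
    · have := (mem_mins.mp hr).2 u hu.1 h1
      rw [this] at hu
      exact hu.2 (h.refl r)

/-- The domination game on the comparability graph of a forest is the pruning game. -/
theorem conn (k : ℕ) :
    (∀ X : Finset V, (∀ x ∈ X, ∀ y, le x y → y ∈ X) →
      (WD (Cmp le) k X (X : Set V) ↔ AD k (lab le τ X))) ∧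
    (∀ X : Finset V, (∀ x ∈ X, ∀ y, le x y → y ∈ X) →
      (WS (Cmp le) k X (X : Set V) ↔ AS k (lab le τ X))) := by
  classical
  have hD : ∀ X : Finset V, (∀ x ∈ X, ∀ y, le x y → y ∈ X) →
      (WD (Cmp le) k X (X : Set V) ↔ AD k (lab le τ X)) := by
    induction k with
    | zero =>
      intro X hX
      show (X : Set V) = ∅ ↔ lab le τ X = 0
      rw [lab_eq_zero h, Finset.coe_eq_empty]
    | succ k ih =>
      intro X hX
      have ihS := conn_S h k ih
      show ((X : Set V) = ∅ ∨ ∃ a ∈ X, WS (Cmp le) k (X.erase a) ((X : Set V) \ {u | Cmp le a u})) ↔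
        (lab le τ X = 0 ∨ ∃ l ∈ lab le τ X, AS k ((lab le τ X).erase l))
      rw [lab_eq_zero h, Finset.coe_eq_empty]
      refine or_congr Iff.rfl ?_
      constructor
      · rintro ⟨a, ha, hw⟩
        obtain ⟨r, hr, hra⟩ := exists_min h X ha
        have hrX := (mem_mins.mp hr).1
        refine ⟨τ r, Multiset.mem_map_of_mem τ hr, ?_⟩
        rw [← conn_kill h k ihS X hX hr]
        refine WS_sim (fun b => if b = r then a else b) ⟨fun b hb => ?_, fun b hb c hc e => ?_,
          fun u hu => ?_⟩ hw
        · rw [Finset.mem_erase] at hb ⊢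
          beta_reduce
          by_cases hbr : b = r
          · rw [if_pos hbr]
            exact ⟨fun e => hb.1 (hbr.trans e.symm), ha⟩
          · rw [if_neg hbr]
            exact ⟨hbr, hb.2⟩
        · rw [Finset.mem_coe, Finset.mem_erase] at hb hc
          beta_reduce at e
          by_cases hbr : b = r <;> by_cases hcr : c = r
          · rw [hbr, hcr]
          · rw [if_pos hbr, if_neg hcr] at e
            exact absurd e.symm hc.1
          · rw [if_neg hbr, if_pos hcr] at e
            exact absurd e hb.1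
          · rw [if_neg hbr, if_neg hcr] at e
            exact e
        · obtain ⟨hu1, hu2⟩ := hu
          refine ⟨u, ⟨hu1, fun h1 => hu2 (cmp_root h hra h1)⟩, fun b hb hN => ?_⟩
          beta_reduce
          by_cases hbr : b = r
          · rw [hbr] at hN
            exact absurd hN hu2
          · rw [if_neg hbr]
            exact hN
      · rintro ⟨l, hl, hw⟩
        obtain ⟨r, hr, rfl⟩ := Multiset.mem_map.mp hl
        have hr' : r ∈ mins le X := hr
        exact ⟨r, (mem_mins.mp hr').1, (conn_kill h k ihS X hX hr').mpr hw⟩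
  exact ⟨hD, conn_S h k hD⟩

end Pool.Agent.Helper7.Cog
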