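import Pool.Agent.Helper7.Cog.Defs

/-!
The game on general positions (free vertices, undominated vertices), and comparison of positions.
-/

set_option autoImplicit false

namespace Pool.Agent.Helper7.Cog

variable {V : Type} [DecidableEq V] (N : V → V → Prop)

/-- Staller to move; `A` is the set of free vertices, `U` the set of undominated ones. -/
def SS (P : Finset V → Set V → Prop) (A : Finset V) (U : Set V) : Prop :=
  U = ∅ ∨ (A.Nonempty ∧ ∀ a ∈ A, P (A.erase a) U)

/-- Dominator to move. -/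
def WD : ℕ → Finset V → Set V → Prop
  | 0, _, U => U = ∅
  | k + 1, A, U => U = ∅ ∨ ∃ a ∈ A, SS (WD k) (A.erase a) (U \ {u | N a u})

/-- Staller to move. -/
def WS (k : ℕ) (A : Finset V) (U : Set V) : Prop := SS (WD N k) A U

theorem WD_empty (k : ℕ) (A : Finset V) : WD N k A ∅ := by
  cases k with
  | zero => rfl
  | succ k => exact Or.inl rfl

theorem WS_empty (k : ℕ) (A : Finset V) : WS N k A ∅ := Or.inl rfl

/-- If some undominated vertex cannot be dominated any more then Dominator loses. -/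
theorem not_win {u : V} : ∀ (k : ℕ) (A : Finset V) (U : Set V), u ∈ U → (∀ a ∈ A, ¬ N a u) →
    ¬ WD N k A U ∧ ¬ WS N k A U := by
  intro k
  induction k with
  | zero =>
    intro A U hu hA
    have hne : U ≠ ∅ := fun h => by rw [h] at hu; exact hu
    refine ⟨hne, ?_⟩
    rintro (h | ⟨⟨a, ha⟩, h⟩)
    · exact hne h
    · exact hne (h a ha)
  | succ k ih =>
    intro A U hu hA
    have hne : U ≠ ∅ := fun h => by rw [h] at hu; exact hu
    have h1 : ∀ B ⊆ A, ¬ WD N (k + 1) B U := by
      rintro B hB (h | ⟨a, ha, h⟩)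
      · exact hne h
      · exact (ih (B.erase a) (U \ {u | N a u}) ⟨hu, hA a (hB ha)⟩
          (fun b hb => hA b (hB (Finset.mem_of_mem_erase hb)))).2 h
    refine ⟨h1 A subset_rfl, ?_⟩
    rintro (h | ⟨⟨a, ha⟩, h⟩)
    · exact hne h
    · exact h1 _ (Finset.erase_subset a A) (h a ha)

theorem WD_succ : ∀ (k : ℕ) (A : Finset V) (U : Set V), WD N k A U → WD N (k + 1) A U := by
  intro k
  induction k with
  | zero => intro A U h; exact Or.inl h
  | succ k ih =>
    rintro A U (h | ⟨a, ha, h⟩)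
    · exact Or.inl h
    · refine Or.inr ⟨a, ha, ?_⟩
      rcases h with h | ⟨h1, h2⟩
      · exact Or.inl h
      · exact Or.inr ⟨h1, fun b hb => ih _ _ (h2 b hb)⟩

theorem WD_mono {k k' : ℕ} (hk : k ≤ k') {A : Finset V} {U : Set V} (h : WD N k A U) :
    WD N k' A U := by
  induction hk with
  | refl => exact h
  | step _ ih => exact WD_succ N _ _ _ ih

theorem WS_mono {k k' : ℕ} (hk : k ≤ k') {A : Finset V} {U : Set V} (h : WS N k A U) :
    WS N k' A U := by
  rcases h with h | ⟨h1, h2⟩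
  · exact Or.inl h
  · exact Or.inr ⟨h1, fun b hb => WD_mono N hk (h2 b hb)⟩

/-- The position `(A', U')` simulates `(A, U)`. -/
def Sim (A : Finset V) (U : Set V) (A' : Finset V) (U' : Set V) (ι : V → V) : Prop :=
  (∀ a ∈ A, ι a ∈ A') ∧ Set.InjOn ι A ∧ ∀ u' ∈ U', ∃ u ∈ U, ∀ a ∈ A, N a u → N (ι a) u'

variable {N}

theorem Sim.erase {A : Finset V} {U : Set V} {A' : Finset V} {U' : Set V} {ι : V → V}
    (h : Sim N A U A' U' ι) {a : V} (ha : a ∈ A) :
    Sim N (A.erase a) U (A'.erase (ι a)) U' ι := by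
  obtain ⟨h1, h2, h3⟩ := h
  refine ⟨fun b hb => ?_, fun b hb c hc e => ?_, fun u' hu' => ?_⟩
  · rw [Finset.mem_erase] at hb ⊢
    exact ⟨fun e => hb.1 (h2 hb.2 ha e), h1 b hb.2⟩
  · exact h2 (Finset.mem_of_mem_erase hb) (Finset.mem_of_mem_erase hc) e
  · obtain ⟨u, hu, h⟩ := h3 u' hu'
    exact ⟨u, hu, fun b hb => h b (Finset.mem_of_mem_erase hb)⟩

theorem Sim.diff {A : Finset V} {U : Set V} {A' : Finset V} {U' : Set V} {ι : V → V}
    (h : Sim N A U A' U' ι) {a : V} (ha : a ∈ A) :
    Sim N (A.erase a) (U \ {u | N a u}) (A'.erase (ι a)) (U' \ {u | N (ι a) u}) ι := by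
  obtain ⟨h1, h2, h3⟩ := h.erase ha
  refine ⟨h1, h2, fun u' hu' => ?_⟩
  obtain ⟨u, hu, h4⟩ := h.2.2 u' hu'.1
  refine ⟨u, ⟨hu, fun h5 => hu'.2 (h4 a ha h5)⟩, fun b hb => h4 b (Finset.mem_of_mem_erase hb)⟩

theorem Sim.erase' {A : Finset V} {U : Set V} {A' : Finset V} {U' : Set V} {ι : V → V}
    (h : Sim N A U A' U' ι) {a' : V} (ha : ∀ a ∈ A, ι a ≠ a') :
    Sim N A U (A'.erase a') U' ι := by
  obtain ⟨h1, h2, h3⟩ := h
  exact ⟨fun b hb => Finset.mem_erase.mpr ⟨ha b hb, h1 b hb⟩, h2, h3⟩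

theorem Sim.empty {A : Finset V} {A' : Finset V} {U' : Set V} {ι : V → V}
    (h : Sim N A ∅ A' U' ι) : U' = ∅ := by
  rw [Set.eq_empty_iff_forall_notMem]
  intro u' hu'
  obtain ⟨u, hu, -⟩ := h.2.2 u' hu'
  exact hu

theorem sim_aux (k : ℕ)
    (hD : ∀ (A : Finset V) (U : Set V) (A' : Finset V) (U' : Set V) (ι : V → V),
      Sim N A U A' U' ι → WD N k A U → WD N k A' U')
    (hK : ∀ (A : Finset V) (U : Set V), WS N k A U → WD N k A U)
    (A : Finset V) (U : Set V) (A' : Finset V) (U' : Set V) (ι : V → V)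
    (h : Sim N A U A' U' ι) (hw : WS N k A U) : WS N k A' U' := by
  have hw' := hw
  rcases hw with rfl | ⟨⟨a, ha⟩, hw⟩
  · exact Or.inl h.empty
  · refine Or.inr ⟨⟨ι a, h.1 a ha⟩, fun a' ha' => ?_⟩
    by_cases hex : ∃ b ∈ A, ι b = a'
    · obtain ⟨b, hb, rfl⟩ := hex
      exact hD _ _ _ _ ι (h.erase hb) (hw b hb)
    · push Not at hex
      exact hD _ _ _ _ ι (h.erase' hex) (hK _ _ hw')

theorem sim_main (k : ℕ) :
    (∀ (A : Finset V) (U : Set V) (A' : Finset V) (U' : Set V) (ι : V → V),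
      Sim N A U A' U' ι → WD N k A U → WD N k A' U') ∧
    (∀ (A : Finset V) (U : Set V), WS N k A U → WD N k A U) := by
  induction k with
  | zero =>
    refine ⟨fun A U A' U' ι h hw => ?_, fun A U hw => ?_⟩
    · have : U = ∅ := hw
      subst this
      exact h.empty
    · rcases hw with hw | ⟨⟨a, ha⟩, hw⟩
      · exact hw
      · exact hw a ha
  | succ k ih =>
    have hS := sim_aux k ih.1 ih.2
    refine ⟨fun A U A' U' ι h hw => ?_, fun A U hw => ?_⟩
    · rcases hw with rfl | ⟨a, ha, hw⟩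
      · exact Or.inl h.empty
      · exact Or.inr ⟨ι a, h.1 a ha, hS _ _ _ _ ι (h.diff ha) hw⟩
    · rcases hw with hw | ⟨⟨a, ha⟩, hw⟩
      · exact Or.inl hw
      · rcases hw a ha with hw | ⟨b, hb, hw⟩
        · exact Or.inl hw
        · refine Or.inr ⟨b, Finset.mem_of_mem_erase hb, hS _ _ _ _ (fun x => x) ?_ hw⟩
          refine ⟨fun c hc => ?_, fun c _ d _ e => e, fun u hu => ⟨u, hu, fun c _ hc => hc⟩⟩
          rw [Finset.mem_erase, Finset.mem_erase] at hc
          exact Finset.mem_erase.mpr ⟨hc.1, hc.2.2⟩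

theorem WD_sim {k : ℕ} {A : Finset V} {U : Set V} {A' : Finset V} {U' : Set V} (ι : V → V)
    (h : Sim N A U A' U' ι) (hw : WD N k A U) : WD N k A' U' := (sim_main k).1 _ _ _ _ ι h hw

theorem WS_sim {k : ℕ} {A : Finset V} {U : Set V} {A' : Finset V} {U' : Set V} (ι : V → V)
    (h : Sim N A U A' U' ι) (hw : WS N k A U) : WS N k A' U' :=
  sim_aux k (sim_main k).1 (sim_main k).2 _ _ _ _ ι h hw

/-- It does not hurt Dominator to be on move. -/
theorem WD_of_WS {k : ℕ} {A : Finset V} {U : Set V} (hw : WS N k A U) : WD N k A U :=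
  (sim_main k).2 _ _ hw

/-- Vertices that dominate nothing new can be removed. -/
theorem dead (k : ℕ) : (∀ (A A' : Finset V) (U : Set V), A ⊆ A' →
      (∀ a ∈ A', a ∉ A → ∀ u ∈ U, ¬ N a u) → WD N k A' U → WD N k A U) ∧
    (∀ (A A' : Finset V) (U : Set V), A ⊆ A' →
      (∀ a ∈ A', a ∉ A → ∀ u ∈ U, ¬ N a u) → WS N k A' U → WS N k A U) := by
  have step : ∀ k, (∀ (A A' : Finset V) (U : Set V), A ⊆ A' →
      (∀ a ∈ A', a ∉ A → ∀ u ∈ U, ¬ N a u) → WD N k A' U → WD N k A U) →
      (∀ (A A' : Finset V) (U : Set V), A ⊆ A' →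
      (∀ a ∈ A', a ∉ A → ∀ u ∈ U, ¬ N a u) → WS N k A' U → WS N k A U) := by
    intro k ih A A' U hA hd hw
    have hw' := hw
    rcases hw with hw | ⟨-, hw⟩
    · exact Or.inl hw
    · rcases Set.eq_empty_or_nonempty U with hU | ⟨u, hu⟩
      · exact Or.inl hU
      · refine Or.inr ⟨?_, fun a ha => ih (A.erase a) (A'.erase a) U
          (Finset.erase_subset_erase a hA) (fun b hb hb' => ?_) (hw a (hA ha))⟩
        · rw [Finset.nonempty_iff_ne_empty]
          intro he
          subst he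
          exact (not_win N k A' U hu (fun a ha => hd a ha (Finset.notMem_empty a) u hu)).2 hw'
        · rw [Finset.mem_erase] at hb
          exact hd b hb.2 (fun h => hb' (Finset.mem_erase.mpr ⟨hb.1, h⟩))
  have hD : (∀ (A A' : Finset V) (U : Set V), A ⊆ A' →
      (∀ a ∈ A', a ∉ A → ∀ u ∈ U, ¬ N a u) → WD N k A' U → WD N k A U) := by
    induction k with
    | zero => intro A A' U _ _ hw; exact hw
    | succ k ih =>
      intro A A' U hA hd hw
      rcases hw with hw | ⟨a, ha, hw⟩
      · exact Or.inl hw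
      · by_cases haA : a ∈ A
        · refine Or.inr ⟨a, haA, step k ih (A.erase a) (A'.erase a) _
            (Finset.erase_subset_erase a hA) (fun b hb hb' u hu => ?_) hw⟩
          rw [Finset.mem_erase] at hb
          exact hd b hb.2 (fun h => hb' (Finset.mem_erase.mpr ⟨hb.1, h⟩)) u hu.1
        · have e : U \ {u | N a u} = U := by
            ext u
            simp only [Set.mem_diff, Set.mem_setOf_eq, and_iff_left_iff_imp]
            exact fun hu => hd a ha haA u hu
          rw [e] at hw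
          have h1 := step k ih A (A'.erase a) U
            (fun b hb => Finset.mem_erase.mpr ⟨fun h => haA (h ▸ hb), hA hb⟩)
            (fun b hb hb' => hd b (Finset.mem_of_mem_erase hb) hb') hw
          exact WD_succ N _ _ _ (WD_of_WS h1)
  exact ⟨hD, step k hD⟩

theorem WD_dead {k : ℕ} {A A' : Finset V} {U : Set V} (hA : A ⊆ A')
    (hd : ∀ a ∈ A', a ∉ A → ∀ u ∈ U, ¬ N a u) : WD N k A' U ↔ WD N k A U := by
  refine ⟨(dead k).1 A A' U hA hd, WD_sim (fun x => x) ?_⟩
  exact ⟨hA, fun c _ d _ e => e, fun u hu => ⟨u, hu, fun _ _ h => h⟩⟩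

theorem WS_dead {k : ℕ} {A A' : Finset V} {U : Set V} (hA : A ⊆ A')
    (hd : ∀ a ∈ A', a ∉ A → ∀ u ∈ U, ¬ N a u) : WS N k A' U ↔ WS N k A U := by
  refine ⟨(dead k).2 A A' U hA hd, WS_sim (fun x => x) ?_⟩
  exact ⟨hA, fun c _ d _ e => e, fun u hu => ⟨u, hu, fun _ _ h => h⟩⟩

/-! ### The official game -/

theorem dominating_iff [Fintype V] (G : SimpleGraph V) (D : Finset V) :
    Dominating G D ↔ ({v | ¬ ∃ u ∈ D, u = v ∨ G.Adj u v} : Set V) = ∅ := by
  rw [Set.eq_empty_iff_forall_notMem]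
  unfold Dominating
  simp only [Set.mem_setOf_eq, not_not]

theorem domWins_iff_WD [Fintype V] (G : SimpleGraph V) (k : ℕ) : ∀ (D S : Finset V),
    DomWins G k D S ↔ WD (fun a u => a = u ∨ G.Adj a u) k (Finset.univ \ (D ∪ S))
      {v | ¬ ∃ u ∈ D, u = v ∨ G.Adj u v} := by
  induction k with
  | zero => intro D S; exact dominating_iff G D
  | succ k ih =>
    intro D S
    show (Dominating G D ∨ ∃ v, v ∉ D ∧ v ∉ S ∧ StallerMoves G (DomWins G k) (insert v D) S) ↔ _
    show _ ↔ (_ ∨ _)
    rw [dominating_iff]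
    refine or_congr Iff.rfl ?_
    refine exists_congr fun v => ?_
    rw [← and_assoc]
    refine and_congr (by simp [not_or]) ?_
    unfold StallerMoves SS
    have e : ({v' | ¬ ∃ u ∈ insert v D, u = v' ∨ G.Adj u v'} : Set V)
        = {v | ¬ ∃ u ∈ D, u = v ∨ G.Adj u v} \ {u | v = u ∨ G.Adj v u} := by
      ext x
      simp only [Finset.mem_insert, exists_eq_or_imp, not_or, Set.mem_setOf_eq, Set.mem_diff]
      tauto
    have e2 : (Finset.univ \ (insert v D ∪ S)) = (Finset.univ \ (D ∪ S)).erase v := by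
      ext x
      simp only [Finset.mem_sdiff, Finset.mem_univ, true_and, Finset.mem_union, Finset.mem_insert,
        Finset.mem_erase]
      tauto
    rw [dominating_iff, e]
    refine or_congr Iff.rfl ?_
    rw [← e2]
    refine and_congr ?_ ?_
    · constructor
      · rintro ⟨w, h1, h2⟩
        exact ⟨w, by simp only [Finset.mem_sdiff, Finset.mem_univ, true_and, Finset.mem_union]; tauto⟩
      · rintro ⟨w, h1⟩
        simp only [Finset.mem_sdiff, Finset.mem_univ, true_and, Finset.mem_union] at h1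
        exact ⟨w, fun h => h1 (Or.inl h), fun h => h1 (Or.inr h)⟩
    · have h3 : ∀ w, DomWins G k (insert v D) (insert w S) ↔
          WD (fun a u => a = u ∨ G.Adj a u) k ((Finset.univ \ (insert v D ∪ S)).erase w)
            ({v | ¬ ∃ u ∈ D, u = v ∨ G.Adj u v} \ {u | v = u ∨ G.Adj v u}) := by
        intro w
        rw [ih, e]
        have e3 : (Finset.univ \ (insert v D ∪ insert w S))
            = (Finset.univ \ (insert v D ∪ S)).erase w := by
          ext x
          simp only [Finset.mem_sdiff, Finset.mem_univ, true_and, Finset.mem_union,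
            Finset.mem_insert, Finset.mem_erase]
          tauto
        rw [e3]
      constructor
      · intro h w hw
        simp only [Finset.mem_sdiff, Finset.mem_univ, true_and, Finset.mem_union] at hw
        exact (h3 w).mp (h w (fun h => hw (Or.inl h)) (fun h => hw (Or.inr h)))
      · intro h w h1 h2
        refine (h3 w).mpr (h w ?_)
        simp only [Finset.mem_sdiff, Finset.mem_univ, true_and, Finset.mem_union]
        tauto

theorem domWinsS_iff_WS [Fintype V] (G : SimpleGraph V) (k : ℕ) (D S : Finset V) :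
    DomWinsS G k D S ↔ WS (fun a u => a = u ∨ G.Adj a u) k (Finset.univ \ (D ∪ S))
      {v | ¬ ∃ u ∈ D, u = v ∨ G.Adj u v} := by
  unfold DomWinsS StallerMoves WS SS
  rw [dominating_iff]
  refine or_congr Iff.rfl (and_congr ?_ ?_)
  · constructor
    · rintro ⟨w, h1, h2⟩
      exact ⟨w, by simp only [Finset.mem_sdiff, Finset.mem_univ, true_and, Finset.mem_union]; tauto⟩
    · rintro ⟨w, h1⟩
      simp only [Finset.mem_sdiff, Finset.mem_univ, true_and, Finset.mem_union] at h1
      exact ⟨w, fun h => h1 (Or.inl h), fun h => h1 (Or.inr h)⟩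
  · have h3 : ∀ w, DomWins G k D (insert w S) ↔
        WD (fun a u => a = u ∨ G.Adj a u) k ((Finset.univ \ (D ∪ S)).erase w)
          {v | ¬ ∃ u ∈ D, u = v ∨ G.Adj u v} := by
      intro w
      rw [domWins_iff_WD]
      have e3 : (Finset.univ \ (D ∪ insert w S)) = (Finset.univ \ (D ∪ S)).erase w := by
        ext x
        simp only [Finset.mem_sdiff, Finset.mem_univ, true_and, Finset.mem_union,
          Finset.mem_insert, Finset.mem_erase]
        tauto
      rw [e3]
    constructor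
    · intro h w hw
      simp only [Finset.mem_sdiff, Finset.mem_univ, true_and, Finset.mem_union] at hw
      exact (h3 w).mp (h w (fun h => hw (Or.inl h)) (fun h => hw (Or.inr h)))
    · intro h w h1 h2
      refine (h3 w).mpr (h w ?_)
      simp only [Finset.mem_sdiff, Finset.mem_univ, true_and, Finset.mem_union]
      tauto

end Pool.Agent.Helper7.Cog
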