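import Pool.Agent.Helper7.Cog.Bounds

/-!
The value of a sum of pairs of trees.
-/

set_option autoImplicit false

namespace Pool.Agent.Helper7.Cog

open Finset

section

variable {W : ℕ → ℕ} {c : ℕ → Bool → List ℕ}

/-- The weights of the roots of the pairs. -/
def PW (W : ℕ → ℕ) (R : Finset ℕ) : Multiset ℕ := ∑ j ∈ R, ({W j, W j} : Multiset ℕ)

theorem cnt_PW (R : Finset ℕ) (t : ℕ) : cnt (PW W R) t = 2 * ∑ j ∈ R, if t < W j then 1 else 0 := by
  induction R using Finset.induction_on with
  | empty => rfl
  | insert i R hi ih =>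
    have e : PW W (insert i R) = W i ::ₘ W i ::ₘ PW W R := by
      unfold PW
      rw [Finset.sum_insert hi, Multiset.insert_eq_cons, Multiset.cons_add, Multiset.singleton_add]
    rw [e, cnt_cons, cnt_cons, ih, Finset.sum_insert hi]
    omega

theorem up_pairs (R : Finset ℕ) (i B : ℕ) (E : Multiset ℕ) (hE : W i ::ₘ PW W R ≤ E)
    (hi : W i ≤ B) (hB : ∀ j ∈ R, W j ≤ B) : ∑ j ∈ R, W j + W i ≤ up B E := by
  refine le_trans ?_ (up_mono B hE)
  have h1 : ∑ j ∈ R, W j = ∑ t ∈ range B, ∑ j ∈ R, if t < W j then 1 else 0 := by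
    rw [Finset.sum_comm]
    refine Finset.sum_congr rfl fun j hj => ?_
    rw [sum_ind, min_eq_left (hB j hj)]
  have h2 : W i = ∑ t ∈ range B, if t < W i then 1 else 0 := by
    rw [sum_ind, min_eq_left hi]
  conv_lhs => rw [h1, h2]
  rw [← Finset.sum_add_distrib]
  unfold up
  refine Finset.sum_le_sum fun t _ => ?_
  rw [cnt_cons, cnt_PW]
  split_ifs <;> omega

theorem map_wt_PR (R : Finset ℕ) : (PR W c R).map wt = PW W R := by
  induction R using Finset.induction_on with
  | empty => rfl
  | insert i R hi ih =>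
    unfold PR PW at ih ⊢
    rw [Finset.sum_insert hi, Finset.sum_insert hi, Multiset.map_add, ih]
    rfl

theorem map_wt_Pos (R : Finset ℕ) (M : Multiset ℕ) (n : ℕ) :
    (Pos W c R M n).map wt = PW W R + (M + Multiset.replicate n 0) := by
  unfold Pos
  rw [Multiset.map_add, Multiset.map_add, map_wt_PR, Multiset.map_map, Multiset.map_replicate]
  congr 2
  exact Multiset.map_id' M

theorem PW_le (R : Finset ℕ) (M : Multiset ℕ) (n : ℕ) : PW W R ≤ (Pos W c R M n).map wt := by
  rw [map_wt_Pos]
  exact Multiset.le_add_right _ _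

/-- Staller's strategy on a sum of pairs. -/
theorem lower (B : ℕ) (ch : ℕ → Bool) (v : ℕ) : ∀ (m : ℕ) (R : Finset ℕ) (M : Multiset ℕ) (n k : ℕ),
    R.card = m → (∀ i ∈ R, ∀ b, (c i b).length ≤ W i + 1) → v ≤ up B (M + cont c R ch) →
    (∀ i ∈ R, v ≤ W i) → (∀ i ∈ R, ∀ j ∈ R, i < j → W j + v ≤ W i) →
    k < (Pos W c R M n).card + ∑ i ∈ R, W i + v → ¬ AS k (Pos W c R M n) := by
  intro m
  induction m with
  | zero =>
    intro R M n k hR _ hv _ _ hk
    have hR' : R = ∅ := Finset.card_eq_zero.mp hR
    subst hR'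
    refine (greedy B k).2 _ ?_
    have e : (Pos W c ∅ M n).map wt = M + Multiset.replicate n 0 := by
      rw [map_wt_Pos]
      have : PW W ∅ = 0 := rfl
      rw [this, zero_add]
    rw [e, up_add_zeros]
    have e2 : cont c ∅ ch = 0 := rfl
    rw [e2, add_zero] at hv
    rw [Finset.sum_empty] at hk
    omega
  | succ m ih =>
    intro R M n k hR hlen hv hW hgap hk hw
    have hne : R.Nonempty := by
      rw [← Finset.card_pos]
      omega
    obtain ⟨i, hi, hmin⟩ : ∃ i ∈ R, ∀ j ∈ R, j ≠ i → i < j :=
      ⟨R.min' hne, R.min'_mem hne, fun j hj hji => lt_of_le_of_ne (R.min'_le j hj) hji.symm⟩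
    rcases hw with hw | hw
    · rw [Pos_big hi true] at hw
      exact Multiset.cons_ne_zero hw
    obtain ⟨-, h1⟩ := hw (.big (W i) (c i (ch i))) (by
      rw [Pos_big hi (ch i)]; exact Multiset.mem_cons_self _ _)
    rw [Pos_big hi (ch i), Multiset.erase_cons_head, Multiset.cons_add, Pos_add_kids] at h1
    have hch : ∀ R' : Finset ℕ, cont c R' (Function.update ch i (ch i)) = cont c R' ch := by
      intro R'
      rw [Function.update_eq_self]
    have hcont := cont_erase (c := c) hi (ch i) ch
    rw [hch] at hcont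
    have hlen' := hlen i hi (ch i)
    have hcard := card_Pos (W := W) (c := c) R M n
    have hcardG := card_Pos (W := W) (c := c) (R.erase i) (M + (c i (ch i) : Multiset ℕ))
      (n + (W i + 1 - (c i (ch i)).length))
    rw [Multiset.card_add, Multiset.coe_card] at hcardG
    have hRc := card_erase' hi
    have hsum := sum_erase (W := W) hi
    cases k with
    | zero => exact Multiset.cons_ne_zero h1
    | succ k =>
      rcases h1 with h1 | ⟨l, hl, h1⟩
      · exact Multiset.cons_ne_zero h1
      · by_cases hlt : l = .big (W i) (c i !(ch i))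
        · subst hlt
          rw [Multiset.erase_cons_head] at h1
          refine ih (R.erase i) _ _ k (by omega) (fun j hj => hlen j (Finset.mem_of_mem_erase hj))
            ?_ (fun j hj => hW j (Finset.mem_of_mem_erase hj))
            (fun j hj j' hj' => hgap j (Finset.mem_of_mem_erase hj) j' (Finset.mem_of_mem_erase hj'))
            ?_ h1
          · rw [add_assoc, ← hcont]
            exact hv
          · omega
        · rw [Multiset.erase_cons_tail _ (fun e => hlt e.symm)] at h1
          have hlG := (Multiset.mem_cons.mp hl).resolve_left hlt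
          set B' := ∑ j ∈ R, W j with hB'
          have hB1 : ∀ j ∈ R, W j ≤ B' := fun j hj =>
            Finset.single_le_sum (f := W) (fun _ _ => Nat.zero_le _) hj
          refine (greedy B' k).2 _ ?_ h1
          rw [Multiset.card_cons, Multiset.card_erase_add_one hlG]
          have key : ∑ j ∈ R.erase i, W j + v ≤
              up B' ((L.big (W i) (c i !(ch i)) ::ₘ (Pos W c (R.erase i)
                (M + (c i (ch i) : Multiset ℕ))
                (n + (W i + 1 - (c i (ch i)).length))).erase l).map wt) := by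
            rw [Multiset.map_cons]
            show _ ≤ up B' (W i ::ₘ _)
            rcases mem_Pos.mp hlG with ⟨j, hj, b, rfl⟩ | ⟨x, hx, rfl⟩ | ⟨hn, rfl⟩
            · rw [Pos_big hj b, Multiset.erase_cons_head, Multiset.map_cons]
              have hjR := Finset.mem_of_mem_erase hj
              have h2 := up_pairs ((R.erase i).erase j) i B'
                (W i ::ₘ wt (L.big (W j) (c j !b)) ::ₘ (Pos W c ((R.erase i).erase j)
                  (M + (c i (ch i) : Multiset ℕ))
                  (n + (W i + 1 - (c i (ch i)).length))).map wt)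
                (by
                  refine Multiset.cons_le_cons _ ?_
                  exact (PW_le _ _ _).trans (Multiset.le_cons_self _ _))
                (hB1 i hi) (fun j' hj' => hB1 j'
                  (Finset.mem_of_mem_erase (Finset.mem_of_mem_erase hj')))
              have h3 := sum_erase (W := W) hj
              have h4 := hgap i hi j hjR (hmin j hjR (Finset.ne_of_mem_erase hj))
              refine le_trans ?_ h2
              omega
            · rw [Pos_sw _ hx, Multiset.erase_cons_head]
              refine le_trans ?_ (up_pairs (R.erase i) i B' _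
                (Multiset.cons_le_cons _ (PW_le _ _ _)) (hB1 i hi)
                (fun j' hj' => hB1 j' (Finset.mem_of_mem_erase hj')))
              have := hW i hi
              omega
            · obtain ⟨m', hm'⟩ : ∃ m', n + (W i + 1 - (c i (ch i)).length) = m' + 1 :=
                ⟨n + (W i + 1 - (c i (ch i)).length) - 1, by omega⟩
              rw [hm', Pos_k2, Multiset.erase_cons_head]
              refine le_trans ?_ (up_pairs (R.erase i) i B' _
                (Multiset.cons_le_cons _ (PW_le _ _ _)) (hB1 i hi)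
                (fun j' hj' => hB1 j' (Finset.mem_of_mem_erase hj')))
              have := hW i hi
              omega
          omega

end

theorem coe_pairs (n : ℕ) (W : ℕ → ℕ) (c : ℕ → Bool → List ℕ) :
    (pairs n W c : Multiset L) = Pos W c (range n) 0 0 := by
  have h0 : Pos W c (range n) 0 0 = PR W c (range n) := by
    unfold Pos
    simp
  rw [h0]
  clear h0
  induction n with
  | zero => rfl
  | succ n ih =>
    unfold pairs PR at ih ⊢
    rw [Finset.sum_range_succ, List.range_succ, List.flatMap_append, ← Multiset.coe_add, ih]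
    rfl

theorem AS_upper {n : ℕ} {W : ℕ → ℕ} {c : ℕ → Bool → List ℕ} {B v : ℕ}
    (hlen : ∀ i < n, ∀ b, (c i b).length ≤ W i + 1) (hB : ∀ i < n, ∀ b, ∀ x ∈ c i b, x ≤ B)
    (hW : ∀ i < n, ∀ ch, (content n c ch).sum ≤ W i) (hv : ∀ ch, up B (content n c ch) ≤ v) :
    AS (2 * n + ∑ i ∈ range n, W i + v) (pairs n W c : Multiset L) := by
  rw [coe_pairs]
  refine (U_all B _).2.1 (range n) 0 0 v ⟨fun i hi => hlen i (Finset.mem_range.mp hi),
    fun x hx => absurd hx (Multiset.notMem_zero x), fun i hi => hB i (Finset.mem_range.mp hi),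
    fun i hi ch => ?_⟩ (fun ch => ?_) ?_
  · rw [zero_add]
    exact hW i (Finset.mem_range.mp hi) ch
  · rw [zero_add]
    exact hv ch
  · rw [card_Pos, Finset.card_range, Multiset.card_zero]
    omega

theorem AS_lower {n : ℕ} {W : ℕ → ℕ} {c : ℕ → Bool → List ℕ} {B v : ℕ}
    (hlen : ∀ i < n, ∀ b, (c i b).length ≤ W i + 1) (ch : ℕ → Bool)
    (hv : v ≤ up B (content n c ch)) (hW : ∀ i < n, v ≤ W i)
    (hgap : ∀ i j, i < j → j < n → W j + v ≤ W i) {k : ℕ}
    (hk : k < 2 * n + ∑ i ∈ range n, W i + v) : ¬ AS k (pairs n W c : Multiset L) := by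
  rw [coe_pairs]
  refine lower B ch v n (range n) 0 0 k (Finset.card_range n)
    (fun i hi => hlen i (Finset.mem_range.mp hi)) ?_ (fun i hi => hW i (Finset.mem_range.mp hi))
    (fun i _ j hj hij => hgap i j hij (Finset.mem_range.mp hj)) ?_
  · rw [zero_add]
    exact hv
  · rw [card_Pos, Finset.card_range, Multiset.card_zero]
    omega

theorem AD_upper {n : ℕ} {W : ℕ → ℕ} {c : ℕ → Bool → List ℕ} {B v : ℕ}
    (hlen : ∀ i < n, ∀ b, (c i b).length ≤ W i + 1) (hB : ∀ i < n, ∀ b, ∀ x ∈ c i b, x ≤ B)
    (hW : ∀ i < n, ∀ ch, (content n c ch).sum ≤ W i) (hv : ∀ ch, up B (content n c ch) ≤ v)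
    (X : ℕ) :
    AD (1 + (2 * n + ∑ i ∈ range n, W i + v)) (L.sw X ::ₘ (pairs n W c : Multiset L)) := by
  rw [Nat.add_comm 1]
  refine Or.inr ⟨.sw X, Multiset.mem_cons_self _ _, ?_⟩
  rw [Multiset.erase_cons_head]
  exact AS_upper hlen hB hW hv

theorem AD_lower {n : ℕ} {W : ℕ → ℕ} {c : ℕ → Bool → List ℕ} {B v : ℕ}
    (hlen : ∀ i < n, ∀ b, (c i b).length ≤ W i + 1) (ch : ℕ → Bool)
    (hv : v ≤ up B (content n c ch)) (hW : ∀ i < n, v ≤ W i)
    (hgap : ∀ i j, i < j → j < n → W j + v ≤ W i) {X : ℕ} (hX : ∑ i ∈ range n, W i + v ≤ X)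
    {k : ℕ} (hk : k < 1 + (2 * n + ∑ i ∈ range n, W i + v)) :
    ¬ AD k (L.sw X ::ₘ (pairs n W c : Multiset L)) := by
  intro hw
  cases k with
  | zero => exact Multiset.cons_ne_zero hw
  | succ k =>
    rcases hw with hw | ⟨l, hl, hw⟩
    · exact Multiset.cons_ne_zero hw
    · by_cases hlX : l = .sw X
      · subst hlX
        rw [Multiset.erase_cons_head] at hw
        exact AS_lower hlen ch hv hW hgap (by omega) hw
      · rw [Multiset.erase_cons_tail _ (fun e => hlX e.symm)] at hw
        have hlG := (Multiset.mem_cons.mp hl).resolve_left hlX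
        refine (greedy X k).2 _ ?_ hw
        have h1 : (pairs n W c : Multiset L).card = 2 * n := by
          rw [coe_pairs, card_Pos, Finset.card_range]
          simp
        rw [Multiset.card_cons, Multiset.card_erase_add_one hlG, h1, Multiset.map_cons]
        have h2 := take_le X X (((pairs n W c : Multiset L).erase l).map wt)
        rw [min_self] at h2
        show k < 2 * n + up X (X ::ₘ _)
        omega

end Pool.Agent.Helper7.Cog
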