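import Pool.Agent.Helper7.Cog.Red
import Pool.Agent.Helper86.Poly.Hard

/-!
The reduction is computable in polynomial time.
-/

set_option autoImplicit false

namespace Pool.Agent.Helper7.Cog

open Pool.Agent.Helper86 Computability

/-- Kinds of trees as tuples. -/
def code : L → ℕ × ℕ × List ℕ
  | .leaf => (0, 0, [])
  | .k2 => (1, 0, [])
  | .sw x => (2, x, [])
  | .big w a => (3, w, a)

theorem code_injective : Function.Injective code := by
  intro l l' h
  cases l <;> cases l' <;> simp_all [code]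

instance : PT.TEnc L := ⟨fun l => PT.toT (code l), fun _ _ h => code_injective (PT.TEnc.inj h)⟩

theorem decide_eq_beq (x y : Bool) : decide (x = y) = (x == y) := by
  cases x <;> cases y <;> rfl

section

variable {α : Type} [PT.TEnc α]

theorem poly_sw {f : α → ℕ} (hf : PT.Poly f) : PT.Poly (fun a => L.sw (f a)) :=
  (PT.Poly.pair (PT.Poly.const 2) (PT.Poly.pair hf (PT.Poly.const ([] : List ℕ))) :
    PT.Poly (fun a => ((2, f a, []) : ℕ × ℕ × List ℕ)))

theorem poly_big {f : α → ℕ} {g : α → List ℕ} (hf : PT.Poly f) (hg : PT.Poly g) :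
    PT.Poly (fun a => L.big (f a) (g a)) :=
  (PT.Poly.pair (PT.Poly.const 3) (PT.Poly.pair hf hg) :
    PT.Poly (fun a => ((3, f a, g a) : ℕ × ℕ × List ℕ)))

theorem poly_code : PT.Poly (fun l : L => code l) := (PT.PolyT.self : PT.PolyT (fun l : L => PT.toT l))

/-- The children in terms of tuples. -/
def kidsC (p : ℕ × ℕ × List ℕ) : List L :=
  if p.1 = 0 then [] else if p.1 = 1 then [.leaf] else
    if p.1 = 2 then List.replicate (p.2.1 + 1) .k2 else
      (p.2.2.map fun x => L.sw x) ++ List.replicate (p.2.1 + 1 - p.2.2.length) .k2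

theorem kids_eq (l : L) : kids l = kidsC (code l) := by
  cases l <;> rfl

theorem poly_kids {f : α → L} (hf : PT.Poly f) : PT.Poly (fun a => kids (f a)) := by
  have h : PT.Poly kidsC := by
    unfold kidsC
    have h1 : PT.Poly (fun p : ℕ × ℕ × List ℕ => p.1) := PT.Poly.fst PT.Poly.id
    have h2 : PT.Poly (fun p : ℕ × ℕ × List ℕ => p.2.1) := PT.Poly.fst (PT.Poly.snd PT.Poly.id)
    have h3 : PT.Poly (fun p : ℕ × ℕ × List ℕ => p.2.2) := PT.Poly.snd (PT.Poly.snd PT.Poly.id)
    refine PT.Poly.ite (PT.Poly.eqNat h1 (PT.Poly.const 0)) (PT.Poly.const []) ?_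
    refine PT.Poly.ite (PT.Poly.eqNat h1 (PT.Poly.const 1)) (PT.Poly.const [L.leaf]) ?_
    refine PT.Poly.ite (PT.Poly.eqNat h1 (PT.Poly.const 2))
      (PT.Poly.replicate (PT.Poly.succ h2) (PT.Poly.const L.k2)) ?_
    refine PT.Poly.append (PT.Poly.map (f := fun _ x => L.sw x) h3 (poly_sw (PT.Poly.snd PT.Poly.id))) ?_
    exact PT.Poly.replicate (PT.Poly.sub (PT.Poly.succ h2) (PT.Poly.length h3)) (PT.Poly.const L.k2)
  have h' := h.comp (poly_code.comp hf)
  exact h'.congr (fun a => (kids_eq (f a)).symm)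

theorem poly_pathsFrom (n : ℕ) : PT.Poly (fun l : L => pathsFrom n l) := by
  induction n with
  | zero => exact PT.Poly.const [[]]
  | succ n ih =>
    refine PT.Poly.cons (f := fun _ : L => ([] : List ℕ)) (PT.Poly.const []) ?_
    refine PT.Poly.flatMap (l := fun l : L => List.range (kids l).length)
      (f := fun l j => (pathsFrom n ((kids l).getD j .leaf)).map (j :: ·))
      (PT.Poly.range (PT.Poly.length (poly_kids PT.Poly.id))) ?_
    refine PT.Poly.map (l := fun p : L × ℕ => pathsFrom n ((kids p.1).getD p.2 .leaf))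
      (f := fun p q => p.2 :: q) ?_ ?_
    · exact ih.comp (PT.Poly.getD (poly_kids (PT.Poly.fst PT.Poly.id)) (PT.Poly.snd PT.Poly.id) (PT.Poly.const L.leaf))
    · exact PT.Poly.cons (PT.Poly.snd (PT.Poly.fst PT.Poly.id)) (PT.Poly.snd PT.Poly.id)

theorem poly_verts {F : α → List L} (hF : PT.Poly F) : PT.Poly (fun a => verts (F a)) := by
  unfold verts
  refine PT.Poly.flatMap (l := fun a => List.range (F a).length)
    (f := fun a j => (pathsFrom 3 ((F a).getD j .leaf)).map (j :: ·))
    (PT.Poly.range (PT.Poly.length hF)) ?_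
  refine PT.Poly.map (l := fun p : α × ℕ => pathsFrom 3 ((F p.1).getD p.2 .leaf))
    (f := fun p q => p.2 :: q) ?_ ?_
  · exact (poly_pathsFrom 3).comp
      (PT.Poly.getD (hF.comp (PT.Poly.fst PT.Poly.id)) (PT.Poly.snd PT.Poly.id) (PT.Poly.const L.leaf))
  · exact PT.Poly.cons (PT.Poly.snd (PT.Poly.fst PT.Poly.id)) (PT.Poly.snd PT.Poly.id)

/-- Being an initial segment. -/
def pre (p q : List ℕ) : Bool :=
  decide (p.length ≤ q.length) &&
    (List.range p.length).all fun i => decide (p.getD i 0 = q.getD i 0)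

theorem pre_iff (p q : List ℕ) : pre p q = true ↔ p <+: q := by
  unfold pre
  rw [Bool.and_eq_true, decide_eq_true_iff, List.all_eq_true]
  constructor
  · rintro ⟨h1, h2⟩
    rw [List.prefix_iff_eq_take]
    refine List.ext_getElem (by simp [h1]) (fun i h3 h4 => ?_)
    have h5 := h2 i (List.mem_range.mpr h3)
    rw [decide_eq_true_iff, List.getD_eq_getElem _ _ h3, List.getD_eq_getElem _ _ (by omega)] at h5
    rw [h5, List.getElem_take]
  · intro h
    refine ⟨h.length_le, fun i hi => ?_⟩
    rw [List.mem_range] at hi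
    have h1 := h.length_le
    rw [decide_eq_true_iff, List.getD_eq_getElem _ _ hi, List.getD_eq_getElem _ _ (by omega)]
    exact h.getElem hi

theorem poly_pre {f g : α → List ℕ} (hf : PT.Poly f) (hg : PT.Poly g) :
    PT.Poly (fun a => pre (f a) (g a)) := by
  unfold pre
  refine PT.Poly.and (PT.Poly.le (PT.Poly.length hf) (PT.Poly.length hg)) ?_
  refine PT.Poly.all (l := fun a => List.range (f a).length)
    (f := fun a i => decide ((f a).getD i 0 = (g a).getD i 0)) (PT.Poly.range (PT.Poly.length hf)) ?_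
  exact PT.Poly.eqNat
    (PT.Poly.getD (hf.comp (PT.Poly.fst PT.Poly.id)) (PT.Poly.snd PT.Poly.id) (PT.Poly.const 0))
    (PT.Poly.getD (hg.comp (PT.Poly.fst PT.Poly.id)) (PT.Poly.snd PT.Poly.id) (PT.Poly.const 0))

/-- Adjacency of paths. -/
def adjb (p q : List ℕ) : Bool := !(pre p q == pre q p)

/-- The bits of the adjacency matrix. -/
def gbits (F : List L) : List Bool :=
  (verts F).flatMap fun p => (verts F).map fun q => adjb p q

theorem poly_gbits {F : α → List L} (hF : PT.Poly F) : PT.Poly (fun a => gbits (F a)) := by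
  unfold gbits
  refine PT.Poly.flatMap (l := fun a => verts (F a)) (f := fun a p => (verts (F a)).map fun q => adjb p q)
    (poly_verts hF) ?_
  refine PT.Poly.map (l := fun p : α × List ℕ => verts (F p.1)) (f := fun p q => adjb p.2 q)
    (poly_verts (hF.comp (PT.Poly.fst PT.Poly.id))) ?_
  unfold adjb
  have h1 : PT.Poly (fun p : (α × List ℕ) × List ℕ => p.1.2) := PT.Poly.snd (PT.Poly.fst PT.Poly.id)
  have h2 : PT.Poly (fun p : (α × List ℕ) × List ℕ => p.2) := PT.Poly.snd PT.Poly.id
  have h3 := PT.Poly.beqBool (poly_pre h1 h2) (poly_pre h2 h1)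
  exact (PT.Poly.not h3).congr (fun a => congrArg Bool.not (decide_eq_beq _ _))

/-- The string of an instance. -/
def istring (F : List L) (k : ℕ) : List Bool :=
  List.replicate (verts F).length true ++ false :: (gbits F ++ encodeNat k)

theorem poly_istring {F : α → List L} {k : α → ℕ} (hF : PT.Poly F) (hk : PT.Poly k) :
    PT.Poly (fun a => istring (F a) (k a)) := by
  unfold istring
  exact PT.Poly.append (PT.Poly.replicate (PT.Poly.length (poly_verts hF)) (PT.Poly.const true))
    (PT.Poly.cons (PT.Poly.const false) (PT.Poly.append (poly_gbits hF) (PT.Poly.encodeNat hk)))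

/-- The sum of a list. -/
theorem poly_sum {f : α → List ℕ} (hf : PT.Poly f) : PT.Poly (fun a => (f a).sum) := by
  have h := PT.Poly.length (PT.Poly.flatMap (l := f) (f := fun _ x => List.replicate x true) hf
    (PT.Poly.replicate (PT.Poly.snd PT.Poly.id) (PT.Poly.const true)))
  refine h.congr (fun a => ?_)
  rw [List.length_flatMap]
  simp

theorem poly_xors : PT.Poly xors := by
  have hQ : PT.Poly Qv := PT.Poly.succ (PT.Poly.nodes PT.Poly.id)
  unfold xors
  refine PT.Poly.flatMap (l := fun φ : List (List (Bool × ℕ)) => List.range φ.length)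
    (f := fun φ c => clauseX (Qv φ) c (φ.getD c [])) (PT.Poly.range (PT.Poly.length PT.Poly.id)) ?_
  unfold clauseX
  have hφ : PT.Poly (fun p : List (List (Bool × ℕ)) × ℕ => p.1) := PT.Poly.fst PT.Poly.id
  have hc : PT.Poly (fun p : List (List (Bool × ℕ)) × ℕ => p.2) := PT.Poly.snd PT.Poly.id
  have hC : PT.Poly (fun p : List (List (Bool × ℕ)) × ℕ => p.1.getD p.2 []) :=
    PT.Poly.getD hφ hc (PT.Poly.const [])
  have hb : PT.Poly (fun p : List (List (Bool × ℕ)) × ℕ => (p.2 + 1) * Qv p.1) :=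
    PT.Poly.mul (PT.Poly.succ hc) (hQ.comp hφ)
  refine PT.Poly.cons (f := fun p : List (List (Bool × ℕ)) × ℕ => [(true, (p.2 + 1) * Qv p.1)])
    (PT.Poly.cons (PT.Poly.pair (PT.Poly.const true) hb) (PT.Poly.const [])) ?_
  refine PT.Poly.cons (f := fun p : List (List (Bool × ℕ)) × ℕ =>
      [(false, (p.2 + 1) * Qv p.1 + (p.1.getD p.2 []).length)])
    (PT.Poly.cons (PT.Poly.pair (PT.Poly.const false) (PT.Poly.add hb (PT.Poly.length hC))) (PT.Poly.const [])) ?_
  refine PT.Poly.flatMap (l := fun p : List (List (Bool × ℕ)) × ℕ => List.range (p.1.getD p.2 []).length)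
    (f := fun p j => lits3 (false, (p.2 + 1) * Qv p.1 + j) ((p.1.getD p.2 []).getD j (true, 0))
      (true, (p.2 + 1) * Qv p.1 + j + 1)) (PT.Poly.range (PT.Poly.length hC)) ?_
  have hb' : PT.Poly (fun p : (List (List (Bool × ℕ)) × ℕ) × ℕ => (p.1.2 + 1) * Qv p.1.1 + p.2) :=
    PT.Poly.add (hb.comp (PT.Poly.fst PT.Poly.id)) (PT.Poly.snd PT.Poly.id)
  have hl1 : PT.Poly (fun p : (List (List (Bool × ℕ)) × ℕ) × ℕ =>
      (false, (p.1.2 + 1) * Qv p.1.1 + p.2)) := PT.Poly.pair (PT.Poly.const false) hb'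
  have hl3 : PT.Poly (fun p : (List (List (Bool × ℕ)) × ℕ) × ℕ =>
      (true, (p.1.2 + 1) * Qv p.1.1 + p.2 + 1)) := PT.Poly.pair (PT.Poly.const true) (PT.Poly.succ hb')
  have hl2 : PT.Poly (fun p : (List (List (Bool × ℕ)) × ℕ) × ℕ =>
      (p.1.1.getD p.1.2 []).getD p.2 (true, 0)) :=
    PT.Poly.getD (hC.comp (PT.Poly.fst PT.Poly.id)) (PT.Poly.snd PT.Poly.id) (PT.Poly.const (true, 0))
  unfold lits3
  have hn : PT.Poly (fun _ : (List (List (Bool × ℕ)) × ℕ) × ℕ => ([] : List (Bool × ℕ))) :=
    PT.Poly.const []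
  exact PT.Poly.cons (PT.Poly.cons hl1 hn) (PT.Poly.cons (PT.Poly.cons hl2 hn) (PT.Poly.cons (PT.Poly.cons hl3 hn)
    (PT.Poly.cons (PT.Poly.cons hl1 (PT.Poly.cons hl2 hn)) (PT.Poly.cons (PT.Poly.cons hl1 (PT.Poly.cons hl3 hn))
      (PT.Poly.cons (PT.Poly.cons hl2 (PT.Poly.cons hl3 hn))
        (PT.Poly.cons (PT.Poly.cons hl1 (PT.Poly.cons hl2 (PT.Poly.cons hl3 hn))) (PT.Poly.const [])))))))

theorem poly_TT : PT.Poly TT := by
  unfold TT
  refine poly_sum (PT.Poly.map (l := fun φ : List (List (Bool × ℕ)) => List.range φ.length)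
    (f := fun φ c => 2 + 4 * (φ.getD c []).length) (PT.Poly.range (PT.Poly.length PT.Poly.id)) ?_)
  exact PT.Poly.add (PT.Poly.const 2) (PT.Poly.mul (PT.Poly.const 4)
    (PT.Poly.length (PT.Poly.getD (PT.Poly.fst PT.Poly.id) (PT.Poly.snd PT.Poly.id) (PT.Poly.const []))))

theorem poly_Z2 : PT.Poly Z2 := by
  unfold Z2
  refine poly_sum (PT.Poly.map (l := fun φ : List (List (Bool × ℕ)) => List.range φ.length)
    (f := fun φ s => (φ.getD s []).length * (2 * s + 1)) (PT.Poly.range (PT.Poly.length PT.Poly.id)) ?_)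
  exact PT.Poly.mul (PT.Poly.length (PT.Poly.getD (PT.Poly.fst PT.Poly.id) (PT.Poly.snd PT.Poly.id) (PT.Poly.const [])))
    (PT.Poly.succ (PT.Poly.mul (PT.Poly.const 2) (PT.Poly.snd PT.Poly.id)))

theorem poly_nv : PT.Poly nv :=
  PT.Poly.mul (PT.Poly.succ (PT.Poly.length PT.Poly.id)) (PT.Poly.succ (PT.Poly.nodes PT.Poly.id))

theorem poly_KK : PT.Poly KK :=
  PT.Poly.add (PT.Poly.mul (PT.Poly.const 2) (poly_Z2.comp poly_xors)) poly_TT

theorem poly_WW : PT.Poly (fun p : List (List (Bool × ℕ)) × ℕ => WW p.1 p.2) :=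
  PT.Poly.mul (PT.Poly.sub (poly_nv.comp (PT.Poly.fst PT.Poly.id)) (PT.Poly.snd PT.Poly.id))
    (poly_KK.comp (PT.Poly.fst PT.Poly.id))

theorem poly_SW : PT.Poly SW :=
  poly_sum (PT.Poly.map (l := fun φ => List.range (nv φ)) (f := fun φ i => WW φ i)
    (PT.Poly.range poly_nv) poly_WW)

theorem poly_kS : PT.Poly kS :=
  PT.Poly.add (PT.Poly.add (PT.Poly.mul (PT.Poly.const 2) poly_nv) poly_SW)
    (PT.Poly.add (poly_Z2.comp poly_xors) poly_TT)

theorem poly_kD : PT.Poly kD := PT.Poly.add (PT.Poly.const 1) poly_kS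

theorem poly_swl {f : α → ℕ} {g : α → Bool} (hf : PT.Poly f) (hg : PT.Poly g) :
    PT.Poly (fun a => swl (f a) (g a)) := by
  unfold swl
  have h2 : PT.Poly (fun a => 2 * f a) := PT.Poly.mul (PT.Poly.const 2) hf
  exact PT.Poly.cond hg
    (PT.Poly.cons (PT.Poly.succ (PT.Poly.succ h2)) (PT.Poly.cons h2 (PT.Poly.const [])))
    (PT.Poly.cons (PT.Poly.succ h2) (PT.Poly.cons (PT.Poly.succ h2) (PT.Poly.const [])))

theorem poly_cts {x : α → List (List (Bool × ℕ))} {f : α → ℕ} {g : α → Bool} (hx : PT.Poly x)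
    (hf : PT.Poly f) (hg : PT.Poly g) : PT.Poly (fun a => cts (x a) (f a) (g a)) := by
  unfold cts
  refine PT.Poly.flatMap (l := fun a => List.range (x a).length)
    (f := fun a s => (((x a).getD s []).filter fun l => l.2 == f a).flatMap
      fun l => swl s (g a == l.1)) (PT.Poly.range (PT.Poly.length hx)) ?_
  refine PT.Poly.flatMap (l := fun p : α × ℕ => ((x p.1).getD p.2 []).filter fun l => l.2 == f p.1)
    (f := fun p l => swl p.2 (g p.1 == l.1)) ?_ ?_
  · refine (PT.Poly.filter (l := fun p : α × ℕ => (x p.1).getD p.2 [])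
      (f := fun p l => decide (l.2 = f p.1))
      (PT.Poly.getD (hx.comp (PT.Poly.fst PT.Poly.id)) (PT.Poly.snd PT.Poly.id) (PT.Poly.const [])) ?_).congr ?_
    · exact PT.Poly.eqNat (PT.Poly.snd (PT.Poly.snd PT.Poly.id)) (hf.comp (PT.Poly.fst (PT.Poly.fst PT.Poly.id)))
    · intro p
      congr 1
  · refine poly_swl (PT.Poly.snd (PT.Poly.fst PT.Poly.id)) ?_
    exact (PT.Poly.beqBool (hg.comp (PT.Poly.fst (PT.Poly.fst PT.Poly.id)))
      (PT.Poly.fst (PT.Poly.snd PT.Poly.id))).congr (fun p => decide_eq_beq _ _)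

theorem poly_FF : PT.Poly FF := by
  unfold FF pairs
  refine PT.Poly.flatMap (l := fun φ => List.range (nv φ))
    (f := fun φ i => [L.big (WW φ i) (cts (xors φ) i true), L.big (WW φ i) (cts (xors φ) i false)])
    (PT.Poly.range poly_nv) ?_
  have hx : PT.Poly (fun p : List (List (Bool × ℕ)) × ℕ => xors p.1) :=
    poly_xors.comp (PT.Poly.fst PT.Poly.id)
  exact PT.Poly.cons (poly_big poly_WW (poly_cts hx (PT.Poly.snd PT.Poly.id) (PT.Poly.const true)))
    (PT.Poly.cons (poly_big poly_WW (poly_cts hx (PT.Poly.snd PT.Poly.id) (PT.Poly.const false)))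
      (PT.Poly.const []))

theorem poly_FD : PT.Poly FD :=
  PT.Poly.cons (poly_sw (PT.Poly.add poly_SW (PT.Poly.add (poly_Z2.comp poly_xors) poly_TT))) poly_FF

end

/-! ### Instances -/

/-- The instance of a forest and a number. -/
def finst (F : List L) (k : ℕ) : Inst where
  n := (verts F).length
  G := gr F
  k := k

theorem bits_finst (F : List L) (k : ℕ) : (finst F k).bits = istring F k := by
  classical
  unfold Inst.bits istring
  have h : Helper86.ZDom.adjBits (gr F) = gbits F := by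
    unfold gbits Helper86.ZDom.adjBits
    rw [List.flatMap_def]
    congr 1
    have h1 : ∀ i j : Fin (verts F).length,
        decide ((gr F).Adj i j) = adjb (verts F)[i] (verts F)[j] := by
      intro i j
      have h2 : (gr F).Adj i j ↔ adjb (verts F)[i] (verts F)[j] = true := by
        have e1 : (gr F).Adj i j ↔ i ≠ j ∧ ((verts F)[i] <+: (verts F)[j] ∨
            (verts F)[j] <+: (verts F)[i]) := Iff.rfl
        rw [e1, ← pre_iff, ← pre_iff]
        unfold adjb
        have h3 : i = j ↔ pre (verts F)[i] (verts F)[j] = true ∧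
            pre (verts F)[j] (verts F)[i] = true := by
          rw [pre_iff, pre_iff]
          constructor
          · rintro rfl
            exact ⟨List.prefix_rfl, List.prefix_rfl⟩
          · rintro ⟨h, h'⟩
            exact verts_inj F (h.eq_of_length (le_antisymm h.length_le h'.length_le))
        rw [ne_eq, h3]
        cases pre (verts F)[i] (verts F)[j] <;> cases pre (verts F)[j] (verts F)[i] <;> simp
      by_cases h3 : (gr F).Adj i j
      · rw [h2.mp h3]
        exact decide_eq_true h3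
      · have h4 : adjb (verts F)[i] (verts F)[j] = false := by
          rw [Bool.eq_false_iff]
          exact fun h => h3 (h2.mpr h)
        rw [h4]
        exact decide_eq_false h3
    refine List.ext_getElem (by simp) (fun i hi hi' => ?_)
    rw [List.getElem_map, List.getElem_ofFn]
    refine List.ext_getElem (by simp) (fun j hj hj' => ?_)
    rw [List.getElem_map, List.getElem_ofFn]
    rw [List.length_map] at hi' hj'
    exact h1 ⟨i, hi'⟩ ⟨j, hj'⟩
  show List.replicate (verts F).length true ++ false :: (Helper86.ZDom.adjBits (gr F) ++ encodeNat k) = _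
  rw [h]

theorem Inst.bits_injective : Function.Injective Inst.bits := by
  rintro ⟨n, G, k⟩ ⟨n', G', k'⟩ h
  unfold Inst.bits at h
  obtain ⟨h1, h2⟩ := Helper86.ZDom.replicate_true_inj h
  simp only at h1
  subst h1
  obtain ⟨h3, h4⟩ := List.append_inj h2 (by rw [Helper86.ZDom.adjBits_length,
    Helper86.ZDom.adjBits_length])
  simp only at h3 h4
  have h5 : k = k' := by
    have := congrArg decodeNat h4
    rwa [decode_encodeNat, decode_encodeNat] at this
  rw [Helper86.ZDom.adjBits_injective h3, h5]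

/-- The encoding of instances as strings. -/
noncomputable def instEnc : Encoding Inst Bool where
  encode := Inst.bits
  decode := Function.partialInv Inst.bits
  decode_encode := fun I => Function.partialInv_left Inst.bits_injective I

theorem npHard_stallerFirst : NP.NPHard instEnc StallerFirst := by
  refine NP.npHard_of_sat instEnc StallerFirst (fun φ => finst (FF φ) (kS φ))
    (fun φ => istring (FF φ) (kS φ)) (poly_istring poly_FF poly_kS)
    (fun φ => (bits_finst _ _).symm) (fun φ => ?_)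
  rw [sat_iff_S]
  exact ⟨fun h => ⟨isCograph_gr _, h⟩, fun h => h.2⟩

theorem npHard_domFirst : NP.NPHard instEnc DomFirst := by
  refine NP.npHard_of_sat instEnc DomFirst (fun φ => finst (FD φ) (kD φ))
    (fun φ => istring (FD φ) (kD φ)) (poly_istring poly_FD poly_kD)
    (fun φ => (bits_finst _ _).symm) (fun φ => ?_)
  rw [sat_iff_D]
  exact ⟨fun h => ⟨isCograph_gr _, h⟩, fun h => h.2⟩

end Pool.Agent.Helper7.Cog
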