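import Pool.Agent.Helper7.Cog.Forest

/-!
The graph of a list of trees is the comparability graph of a rooted forest.
-/

set_option autoImplicit false

namespace Pool.Agent.Helper7.Cog

open Finset

/-- The kind of the subtree at the end of a path. -/
def follow : L → List ℕ → Option L
  | l, [] => some l
  | l, j :: p => (kids l)[j]?.bind fun l' => follow l' p

/-- The kind of the subtree at the end of a path in a forest. -/
def kindOf (F : List L) : List ℕ → Option L
  | [] => none
  | j :: p => F[j]?.bind fun l => follow l p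

/-- The height of a tree. -/
def dep : L → ℕ
  | .leaf => 0
  | .k2 => 1
  | .sw _ => 2
  | .big _ _ => 3

theorem dep_kids {l l' : L} (h : l' ∈ kids l) : dep l' + 1 ≤ dep l := by
  cases l with
  | leaf => simp [kids] at h
  | k2 =>
    simp only [kids, List.mem_singleton] at h
    subst h
    decide
  | sw x =>
    simp only [kids, List.mem_replicate] at h
    rw [h.2]
    exact le_refl _
  | big w a =>
    simp only [kids, List.mem_append, List.mem_map, List.mem_replicate] at h
    rcases h with ⟨x, -, rfl⟩ | ⟨-, rfl⟩
    · exact le_refl _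
    · show 1 + 1 ≤ 3
      omega

theorem follow_append (p q : List ℕ) : ∀ (l : L),
    follow l (p ++ q) = (follow l p).bind fun l' => follow l' q := by
  induction p with
  | nil => intro l; rfl
  | cons j p ih =>
    intro l
    show ((kids l)[j]?.bind fun l' => follow l' (p ++ q)) = _
    show _ = ((kids l)[j]?.bind fun l' => follow l' p).bind fun l' => follow l' q
    cases (kids l)[j]? with
    | none => rfl
    | some l' => exact ih l'

theorem kindOf_append (F : List L) (p q : List ℕ) (hp : p ≠ []) :
    kindOf F (p ++ q) = (kindOf F p).bind fun l' => follow l' q := by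
  cases p with
  | nil => exact absurd rfl hp
  | cons j p =>
    show (F[j]?.bind fun l' => follow l' (p ++ q)) = _
    show _ = (F[j]?.bind fun l' => follow l' p).bind fun l' => follow l' q
    cases F[j]? with
    | none => rfl
    | some l' => exact follow_append p q l'

theorem follow_dep (p : List ℕ) : ∀ (l l' : L), follow l p = some l' → p.length + dep l' ≤ dep l := by
  induction p with
  | nil =>
    intro l l' h
    have : l = l' := Option.some.inj h
    subst this
    simp
  | cons j p ih =>
    intro l l' h
    change ((kids l)[j]?.bind fun l' => follow l' p) = some l' at h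
    rw [Option.bind_eq_some_iff] at h
    obtain ⟨l'', h1, h2⟩ := h
    have h3 := ih l'' l' h2
    have h4 := dep_kids (List.mem_of_getElem? h1)
    rw [List.length_cons]
    omega

theorem mem_pathsFrom (n : ℕ) : ∀ (l : L) (p : List ℕ),
    p ∈ pathsFrom n l ↔ p.length ≤ n ∧ ∃ l', follow l p = some l' := by
  induction n with
  | zero =>
    intro l p
    rw [pathsFrom, List.mem_singleton]
    constructor
    · rintro rfl
      exact ⟨le_refl _, l, rfl⟩
    · rintro ⟨h, -⟩
      exact List.length_eq_zero_iff.mp (Nat.le_zero.mp h)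
  | succ n ih =>
    intro l p
    rw [pathsFrom, List.mem_cons, List.mem_flatMap]
    cases p with
    | nil =>
      refine ⟨fun _ => ⟨Nat.zero_le _, l, rfl⟩, fun _ => Or.inl rfl⟩
    | cons j p =>
      constructor
      · rintro (h | ⟨i, hi, h⟩)
        · cases h
        · obtain ⟨q, hq, hq'⟩ := List.mem_map.mp h
          obtain ⟨rfl, rfl⟩ := List.cons.inj hq'
          rw [List.mem_range] at hi
          rw [ih] at hq
          refine ⟨by rw [List.length_cons]; omega, ?_⟩
          obtain ⟨-, l', hl'⟩ := hq
          refine ⟨l', ?_⟩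
          show ((kids l)[i]?.bind fun l' => follow l' q) = some l'
          rw [List.getElem?_eq_getElem hi]
          rw [List.getD_eq_getElem _ _ hi] at hl'
          exact hl'
      · rintro ⟨h1, l', h2⟩
        right
        change ((kids l)[j]?.bind fun l' => follow l' p) = some l' at h2
        rw [Option.bind_eq_some_iff] at h2
        obtain ⟨l'', h3, h4⟩ := h2
        obtain ⟨hj, h5⟩ := List.getElem?_eq_some_iff.mp h3
        refine ⟨j, List.mem_range.mpr hj, List.mem_map.mpr ⟨p, ?_, rfl⟩⟩
        rw [ih, List.getD_eq_getElem _ _ hj, h5]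
        rw [List.length_cons] at h1
        exact ⟨by omega, l', h4⟩

theorem mem_verts (F : List L) (p : List ℕ) : p ∈ verts F ↔ ∃ l, kindOf F p = some l := by
  unfold verts
  rw [List.mem_flatMap]
  cases p with
  | nil =>
    constructor
    · rintro ⟨i, -, h⟩
      obtain ⟨q, -, hq⟩ := List.mem_map.mp h
      cases hq
    · rintro ⟨l, hl⟩
      cases hl
  | cons j p =>
    constructor
    · rintro ⟨i, hi, h⟩
      obtain ⟨q, hq, hq'⟩ := List.mem_map.mp h
      obtain ⟨rfl, rfl⟩ := List.cons.inj hq'
      rw [List.mem_range] at hi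
      rw [mem_pathsFrom, List.getD_eq_getElem _ _ hi] at hq
      obtain ⟨-, l, hl⟩ := hq
      refine ⟨l, ?_⟩
      show (F[i]?.bind fun l => follow l q) = some l
      rw [List.getElem?_eq_getElem hi]
      exact hl
    · rintro ⟨l, hl⟩
      change (F[j]?.bind fun l => follow l p) = some l at hl
      rw [Option.bind_eq_some_iff] at hl
      obtain ⟨l', h1, h2⟩ := hl
      obtain ⟨hj, h5⟩ := List.getElem?_eq_some_iff.mp h1
      refine ⟨j, List.mem_range.mpr hj, List.mem_map.mpr ⟨p, ?_, rfl⟩⟩
      rw [mem_pathsFrom, List.getD_eq_getElem _ _ hj, h5]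
      have h3 := follow_dep p l' l h2
      have h4 : dep l' ≤ 3 := by cases l' <;> simp [dep]
      exact ⟨by omega, l, h2⟩

theorem nodup_flat {ls : ℕ → List (List ℕ)} (n : ℕ) (h : ∀ j < n, (ls j).Nodup) :
    ((List.range n).flatMap fun j => (ls j).map (j :: ·)).Nodup := by
  rw [List.nodup_flatMap]
  constructor
  · intro j hj
    exact (h j (List.mem_range.mp hj)).map (fun a b hab => (List.cons.inj hab).2)
  · refine List.Nodup.pairwise_of_forall_ne (List.nodup_range) ?_
    intro i _ j _ hij p hp hp'
    obtain ⟨q, -, rfl⟩ := List.mem_map.mp hp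
    obtain ⟨q', -, h2⟩ := List.mem_map.mp hp'
    exact hij (List.cons.inj h2).1.symm

theorem nodup_pathsFrom (n : ℕ) : ∀ l, (pathsFrom n l).Nodup := by
  induction n with
  | zero => intro l; exact List.nodup_singleton _
  | succ n ih =>
    intro l
    rw [pathsFrom, List.nodup_cons]
    refine ⟨fun h => ?_, nodup_flat _ (fun j _ => ih _)⟩
    rw [List.mem_flatMap] at h
    obtain ⟨j, -, h⟩ := h
    obtain ⟨q, -, h⟩ := List.mem_map.mp h
    cases h

theorem nodup_verts (F : List L) : (verts F).Nodup :=
  nodup_flat _ (fun _ _ => nodup_pathsFrom _ _)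

/-- The order of the forest. -/
def ple (F : List L) (i j : Fin (verts F).length) : Prop := (verts F)[i] <+: (verts F)[j]

/-- The kinds of the subtrees. -/
def ptau (F : List L) (i : Fin (verts F).length) : L := (kindOf F (verts F)[i]).getD .leaf

theorem verts_inj (F : List L) {i j : Fin (verts F).length} (h : (verts F)[i] = (verts F)[j]) :
    i = j := by
  have := (nodup_verts F).getElem_inj_iff (hi := i.2) (hj := j.2) |>.mp h
  exact Fin.ext this

theorem exists_vert (F : List L) {p : List ℕ} (h : p ∈ verts F) :
    ∃ i : Fin (verts F).length, (verts F)[i] = p := by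
  obtain ⟨i, hi, h⟩ := List.mem_iff_getElem.mp h
  exact ⟨⟨i, hi⟩, h⟩

theorem map_eq (F : List L) (S : Finset (Fin (verts F).length)) (ls : List L) (g : ℕ → List ℕ)
    (hg : ∀ a b, g a = g b → a = b)
    (hS : ∀ c, c ∈ S ↔ ∃ m < ls.length, (verts F)[c] = g m)
    (hk : ∀ m (hm : m < ls.length), kindOf F (g m) = some ls[m]) :
    S.val.map (ptau F) = (ls : Multiset L) := by
  classical
  have hmem : ∀ m : Fin ls.length, ∃ i : Fin (verts F).length, (verts F)[i] = g m := fun m =>
    exists_vert F ((mem_verts F _).mpr ⟨_, hk m.1 m.2⟩)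
  choose f hf using hmem
  have hfi : Function.Injective f := by
    intro a b hab
    have h1 := hf a
    rw [hab, hf b] at h1
    exact Fin.ext (hg _ _ h1).symm
  have e : S = Finset.univ.map ⟨f, hfi⟩ := by
    ext c
    rw [hS, Finset.mem_map]
    constructor
    · rintro ⟨m, hm, h1⟩
      exact ⟨⟨m, hm⟩, Finset.mem_univ _, verts_inj F ((hf ⟨m, hm⟩).trans h1.symm)⟩
    · rintro ⟨m, -, rfl⟩
      exact ⟨m.1, m.2, hf m⟩
  rw [e, Finset.map_val, Multiset.map_map]
  have e2 : (ptau F ∘ (⟨f, hfi⟩ : Fin ls.length ↪ Fin (verts F).length)) = fun m => ls[m] := by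
    funext m
    show (kindOf F (verts F)[f m]).getD .leaf = ls[m]
    rw [hf m, hk m.1 m.2]
    rfl
  rw [e2, Fin.univ_val_map]
  congr 1
  exact List.ofFn_getElem

theorem isForest (F : List L) : IsForest (ple F) (ptau F) where
  refl a := List.prefix_rfl
  trans a b c := List.IsPrefix.trans
  antisymm a b h h' := verts_inj F (h.eq_of_length (le_antisymm h.length_le h'.length_le))
  tree a b c h h' := List.prefix_or_prefix_of_prefix h h'
  kids v := by
    obtain ⟨l, hl⟩ := (mem_verts F (verts F)[v]).mp (List.getElem_mem _)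
    have hne : (verts F)[v] ≠ [] := by
      intro h
      rw [h] at hl
      cases hl
    have hτ : ptau F v = l := by
      unfold ptau
      rw [hl]
      rfl
    rw [hτ]
    refine map_eq F _ (kids l) (fun m => (verts F)[v] ++ [m])
      (fun a b h => by simpa using h) (fun c => ?_) (fun m hm => ?_)
    · rw [mem_ch]
      constructor
      · rintro ⟨h1, h2, h3⟩
        obtain ⟨q, hq⟩ := h1
        obtain ⟨l', hl'⟩ := (mem_verts F (verts F)[c]).mp (List.getElem_mem _)
        cases q with
        | nil =>
          rw [List.append_nil] at hq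
          exact absurd (verts_inj F hq) h2
        | cons m q =>
          have h4 : ((verts F)[v] ++ [m]) ++ q = (verts F)[c] := by
            rw [← hq]
            simp
          have h5 : (verts F)[v] ++ [m] ≠ [] := by simp
          rw [← h4, kindOf_append F _ _ h5, Option.bind_eq_some_iff] at hl'
          obtain ⟨l'', h6, -⟩ := hl'
          obtain ⟨x, hx⟩ := exists_vert F ((mem_verts F _).mpr ⟨l'', h6⟩)
          have h7 := h3 x (by unfold ple; rw [hx]; exact List.prefix_append _ _)
            (by unfold ple; rw [hx]; exact ⟨q, h4⟩)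
          rcases h7 with rfl | rfl
          · have := congrArg List.length hx
            simp at this
          · refine ⟨m, ?_, hx⟩
            rw [kindOf_append F _ _ hne, hl] at h6
            change ((kids l)[m]?.bind fun l' => follow l' []) = some l'' at h6
            rw [Option.bind_eq_some_iff] at h6
            obtain ⟨l3, h8, -⟩ := h6
            exact (List.getElem?_eq_some_iff.mp h8).1
      · rintro ⟨m, -, h⟩
        refine ⟨⟨[m], h.symm⟩, ?_, fun x hx hxc => ?_⟩
        · rintro rfl
          have := congrArg List.length h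
          simp at this
        · obtain ⟨q, hq⟩ := hx
          obtain ⟨q', hq'⟩ := hxc
          cases q with
          | nil =>
            rw [List.append_nil] at hq
            exact Or.inl (verts_inj F hq.symm)
          | cons m' q =>
            right
            refine verts_inj F ?_
            rw [← hq, h, List.append_assoc] at hq'
            have := List.append_cancel_left hq'
            rw [List.cons_append, List.cons.injEq] at this
            obtain ⟨rfl, h9⟩ := this
            rw [List.append_eq_nil_iff] at h9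
            rw [← hq, h, h9.1]
    · rw [kindOf_append F _ _ hne, hl]
      show ((kids l)[m]?.bind fun l' => follow l' []) = _
      rw [List.getElem?_eq_getElem hm]
      rfl

theorem lab_univ (F : List L) : lab (ple F) (ptau F) Finset.univ = (F : Multiset L) := by
  unfold lab
  refine map_eq F _ F (fun m => [m]) (fun a b h => by simpa using h) (fun c => ?_)
    (fun m hm => ?_)
  · rw [mem_mins]
    constructor
    · rintro ⟨-, h⟩
      obtain ⟨l, hl⟩ := (mem_verts F (verts F)[c]).mp (List.getElem_mem _)
      cases hc : (verts F)[c] with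
      | nil =>
        rw [hc] at hl
        cases hl
      | cons m p =>
        rw [hc] at hl
        change (F[m]?.bind fun l => follow l p) = some l at hl
        rw [Option.bind_eq_some_iff] at hl
        obtain ⟨l', h1, h2⟩ := hl
        have h3 : kindOf F [m] = some l' := by
          show (F[m]?.bind fun l => follow l []) = some l'
          rw [h1]
          rfl
        obtain ⟨x, hx⟩ := exists_vert F ((mem_verts F _).mpr ⟨l', h3⟩)
        have h4 := h x (Finset.mem_univ _) (by unfold ple; rw [hx, hc]; exact ⟨p, rfl⟩)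
        subst h4
        refine ⟨m, (List.getElem?_eq_some_iff.mp h1).1, ?_⟩
        rw [← hc]
        exact hx
    · rintro ⟨m, -, h⟩
      refine ⟨Finset.mem_univ _, fun y _ hy => ?_⟩
      obtain ⟨q, hq⟩ := hy
      obtain ⟨l, hl⟩ := (mem_verts F (verts F)[y]).mp (List.getElem_mem _)
      cases hc : (verts F)[y] with
      | nil =>
        rw [hc] at hl
        cases hl
      | cons m' p =>
        refine verts_inj F ?_
        rw [hc, h, List.cons_append, List.cons.injEq, List.append_eq_nil_iff] at hq
        rw [hc, h, hq.1, hq.2.1]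
  · show (F[m]?.bind fun l => follow l []) = _
    rw [List.getElem?_eq_getElem hm]
    rfl

theorem gr_adj (F : List L) (a u : Fin (verts F).length) :
    (a = u ∨ (gr F).Adj a u) ↔ Cmp (ple F) a u := by
  constructor
  · rintro (rfl | h)
    · exact Or.inl List.prefix_rfl
    · exact h.2
  · intro h
    by_cases hau : a = u
    · exact Or.inl hau
    · exact Or.inr ⟨hau, h⟩

theorem stWins_iff (F : List L) (k : ℕ) :
    DomWinsS (gr F) k ∅ ∅ ↔ AS k (F : Multiset L) := by
  rw [domWinsS_iff_WS, ← lab_univ F, ← (conn (isForest F) k).2 _ (fun _ _ _ _ => Finset.mem_univ _)]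
  have e : (fun a u => a = u ∨ (gr F).Adj a u) = Cmp (ple F) := by
    funext a u
    exact propext (gr_adj F a u)
  rw [e]
  have e2 : (Finset.univ \ (∅ ∪ ∅) : Finset (Fin (verts F).length)) = Finset.univ := by simp
  have e3 : ({v | ¬ ∃ u ∈ (∅ : Finset (Fin (verts F).length)), u = v ∨ (gr F).Adj u v} : Set _)
      = ((Finset.univ : Finset (Fin (verts F).length)) : Set _) := by
    ext v
    simp
  rw [e2, e3]

theorem domWins_iff (F : List L) (k : ℕ) :
    DomWins (gr F) k ∅ ∅ ↔ AD k (F : Multiset L) := by
  rw [domWins_iff_WD, ← lab_univ F, ← (conn (isForest F) k).1 _ (fun _ _ _ _ => Finset.mem_univ _)]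
  have e : (fun a u => a = u ∨ (gr F).Adj a u) = Cmp (ple F) := by
    funext a u
    exact propext (gr_adj F a u)
  rw [e]
  have e2 : (Finset.univ \ (∅ ∪ ∅) : Finset (Fin (verts F).length)) = Finset.univ := by simp
  have e3 : ({v | ¬ ∃ u ∈ (∅ : Finset (Fin (verts F).length)), u = v ∨ (gr F).Adj u v} : Set _)
      = ((Finset.univ : Finset (Fin (verts F).length)) : Set _) := by
    ext v
    simp
  rw [e2, e3]

theorem isCograph_gr (F : List L) : IsCograph (gr F) := by
  constructor
  intro e
  have hF := isForest F
  have hadj : ∀ i j : Fin 4, (gr F).Adj (e i) (e j) ↔ (SimpleGraph.pathGraph 4).Adj i j :=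
    fun i j => e.map_adj_iff
  have h01 : Cmp (ple F) (e 0) (e 1) := ((hadj 0 1).mpr (by rw [SimpleGraph.pathGraph_adj]; decide)).2
  have h12 : Cmp (ple F) (e 1) (e 2) := ((hadj 1 2).mpr (by rw [SimpleGraph.pathGraph_adj]; decide)).2
  have h23 : Cmp (ple F) (e 2) (e 3) := ((hadj 2 3).mpr (by rw [SimpleGraph.pathGraph_adj]; decide)).2
  have n02 : ¬ Cmp (ple F) (e 0) (e 2) := by
    intro h
    have h1 : ¬ (gr F).Adj (e 0) (e 2) := by
      rw [hadj, SimpleGraph.pathGraph_adj]
      decide
    exact h1 ⟨fun h2 => absurd (e.injective h2) (by decide), h⟩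
  have n13 : ¬ Cmp (ple F) (e 1) (e 3) := by
    intro h
    have h1 : ¬ (gr F).Adj (e 1) (e 3) := by
      rw [hadj, SimpleGraph.pathGraph_adj]
      decide
    exact h1 ⟨fun h2 => absurd (e.injective h2) (by decide), h⟩
  have h10 : ple F (e 1) (e 0) := by
    rcases h01 with h | h
    · rcases h12 with h' | h'
      · exact absurd (Or.inl (hF.trans _ _ _ h h')) n02
      · exact absurd (hF.tree _ _ _ h h') n02
    · exact h
  have h12' : ple F (e 1) (e 2) := by
    rcases h12 with h | h
    · exact h
    · exact absurd (Or.inr (hF.trans _ _ _ h h10)) n02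
  rcases h23 with h | h
  · exact n13 (Or.inl (hF.trans _ _ _ h12' h))
  · exact n13 (hF.tree _ _ _ h12' h)

theorem le_gammaMBS_iff {V : Type} [DecidableEq V] (G : SimpleGraph V) (k : ℕ) :
    (k : ℕ∞) ≤ gammaMBS G ↔ ∀ j < k, ¬ DomWinsS G j ∅ ∅ := by
  unfold gammaMBS
  rw [le_sInf_iff]
  constructor
  · intro h j hj hw
    have := h j ⟨j, rfl, hw⟩
    exact absurd (Nat.cast_le.mp this) (not_le.mpr hj)
  · rintro h _ ⟨j, rfl, hw⟩
    by_contra h1
    rw [not_le, Nat.cast_lt] at h1
    exact h j h1 hw

theorem le_gammaMB_iff {V : Type} [DecidableEq V] (G : SimpleGraph V) (k : ℕ) :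
    (k : ℕ∞) ≤ gammaMB G ↔ ∀ j < k, ¬ DomWins G j ∅ ∅ := by
  unfold gammaMB
  rw [le_sInf_iff]
  constructor
  · intro h j hj hw
    have := h j ⟨j, rfl, hw⟩
    exact absurd (Nat.cast_le.mp this) (not_le.mpr hj)
  · rintro h _ ⟨j, rfl, hw⟩
    by_contra h1
    rw [not_le, Nat.cast_lt] at h1
    exact h j h1 hw

end Pool.Agent.Helper7.Cog
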