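import Pool.Agent.Helper7.Cog.Xor
import Pool.Agent.Helper7.Cog.Real
import Pool.Agent.Helper86.Poly.Tableau
import Pool.Agent.Helper86.Poly.Fun2

/-!
From formulas in conjunctive normal form to forests.
-/

set_option autoImplicit false

namespace Pool.Agent.Helper7.Cog

open Finset Pool.Agent.Helper86

/-- The seven parity constraints of a clause with three literals. -/
def lits3 (a b d : Bool × ℕ) : List (List (Bool × ℕ)) :=
  [[a], [b], [d], [a, b], [a, d], [b, d], [a, b, d]]

/-- The parity constraints of the clause `C` number `c`; its auxiliary variables are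
`(c + 1) * Q + j`. -/
def clauseX (Q c : ℕ) (C : List (Bool × ℕ)) : List (List (Bool × ℕ)) :=
  [(true, (c + 1) * Q)] :: [(false, (c + 1) * Q + C.length)] ::
    (List.range C.length).flatMap fun j =>
      lits3 (false, (c + 1) * Q + j) (C.getD j (true, 0)) (true, (c + 1) * Q + j + 1)

/-- A bound for the variables. -/
def Qv (φ : List (List (Bool × ℕ))) : ℕ := (PT.toT φ).nodes + 1

/-- The parity constraints of a formula. -/
def xors (φ : List (List (Bool × ℕ))) : List (List (Bool × ℕ)) :=
  (List.range φ.length).flatMap fun c => clauseX (Qv φ) c (φ.getD c [])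

/-- The target. -/
def TT (φ : List (List (Bool × ℕ))) : ℕ :=
  ((List.range φ.length).map fun c => 2 + 4 * (φ.getD c []).length).sum

theorem score_append (ν : ℕ → Bool) (X Y : List (List (Bool × ℕ))) :
    score ν (X ++ Y) = score ν X + score ν Y := List.countP_append

theorem score_cons (ν : ℕ → Bool) (x : List (Bool × ℕ)) (Y : List (List (Bool × ℕ))) :
    score ν (x :: Y) = score ν Y + if nt ν x % 2 == 1 then 1 else 0 := List.countP_cons ..

theorem score_flatMap (ν : ℕ → Bool) (m : ℕ) (f : ℕ → List (List (Bool × ℕ))) :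
    score ν ((List.range m).flatMap f) = ∑ c ∈ range m, score ν (f c) := by
  induction m with
  | zero => rfl
  | succ m ih =>
    rw [Finset.sum_range_succ, List.range_succ, List.flatMap_append, score_append, ih]
    simp

theorem list_sum_range (k : ℕ) (f : ℕ → ℕ) : ((List.range k).map f).sum = ∑ s ∈ range k, f s := by
  induction k with
  | zero => rfl
  | succ k ih =>
    rw [Finset.sum_range_succ, List.range_succ, List.map_append, List.sum_append, ih]
    simp

theorem score_single (ν : ℕ → Bool) (a : Bool × ℕ) :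
    score ν [[a]] = if tr ν a then 1 else 0 := by
  unfold score nt
  cases h : tr ν a <;> simp [h, List.countP_cons]

theorem score_lits3 (ν : ℕ → Bool) (a b d : Bool × ℕ) :
    score ν (lits3 a b d) = if tr ν a || tr ν b || tr ν d then 4 else 0 := by
  unfold score lits3 nt
  cases h : tr ν a <;> cases h' : tr ν b <;> cases h'' : tr ν d <;>
    simp [h, h', h'', List.countP_cons]

theorem score_clauseX (ν : ℕ → Bool) (Q c : ℕ) (C : List (Bool × ℕ)) :
    score ν (clauseX Q c C) = (if ν ((c + 1) * Q) then 1 else 0)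
      + (if ν ((c + 1) * Q + C.length) then 0 else 1)
      + ∑ j ∈ range C.length, if (!ν ((c + 1) * Q + j)) || tr ν (C.getD j (true, 0)) ||
        ν ((c + 1) * Q + j + 1) then 4 else 0 := by
  unfold clauseX
  have e : ∀ (x y : List (Bool × ℕ)) (Z : List (List (Bool × ℕ))),
      x :: y :: Z = [x] ++ ([y] ++ Z) := fun _ _ _ => rfl
  rw [e, score_append, score_append, score_single, score_single, score_flatMap, ← add_assoc]
  congr 1
  · congr 1
    · unfold tr
      cases ν ((c + 1) * Q) <;> rfl
    · unfold tr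
      cases ν ((c + 1) * Q + C.length) <;> rfl
  · refine Finset.sum_congr rfl fun j _ => ?_
    rw [score_lits3]
    have e1 : tr ν (false, (c + 1) * Q + j) = !ν ((c + 1) * Q + j) := by
      unfold tr
      cases ν ((c + 1) * Q + j) <;> rfl
    have e2 : tr ν (true, (c + 1) * Q + j + 1) = ν ((c + 1) * Q + j + 1) := by
      unfold tr
      cases ν ((c + 1) * Q + j + 1) <;> rfl
    rw [e1, e2]

theorem score_clauseX_le (ν : ℕ → Bool) (Q c : ℕ) (C : List (Bool × ℕ)) :
    score ν (clauseX Q c C) ≤ 2 + 4 * C.length := by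
  rw [score_clauseX]
  have h : ∑ j ∈ range C.length, (if (!ν ((c + 1) * Q + j)) || tr ν (C.getD j (true, 0)) ||
        ν ((c + 1) * Q + j + 1) then 4 else 0) ≤ ∑ j ∈ range C.length, 4 := by
    refine Finset.sum_le_sum fun j _ => ?_
    split_ifs <;> omega
  rw [Finset.sum_const, Finset.card_range, smul_eq_mul] at h
  split_ifs <;> omega

/-- If all parity constraints of a clause contribute as much as possible then the clause is
satisfied. -/
theorem clause_of_score (ν : ℕ → Bool) (Q c : ℕ) (C : List (Bool × ℕ))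
    (h : score ν (clauseX Q c C) = 2 + 4 * C.length) : ∃ l ∈ C, ν l.2 = l.1 := by
  rw [score_clauseX] at h
  have h1 : ∑ j ∈ range C.length, (if (!ν ((c + 1) * Q + j)) || tr ν (C.getD j (true, 0)) ||
        ν ((c + 1) * Q + j + 1) then 4 else 0) ≤ ∑ j ∈ range C.length, 4 := by
    refine Finset.sum_le_sum fun j _ => ?_
    split_ifs <;> omega
  have h4 : ∑ j ∈ range C.length, 4 = 4 * C.length := by
    rw [Finset.sum_const, Finset.card_range, smul_eq_mul, mul_comm]
  have hy0 : ν ((c + 1) * Q) = true := by
    by_contra hc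
    rw [if_neg hc] at h
    split_ifs at h <;> omega
  have hy1 : ν ((c + 1) * Q + C.length) = false := by
    by_contra hc
    have hc' : ν ((c + 1) * Q + C.length) = true := by simpa using hc
    rw [if_pos hc'] at h
    split_ifs at h <;> omega
  have h5 : ∑ j ∈ range C.length, (if (!ν ((c + 1) * Q + j)) || tr ν (C.getD j (true, 0)) ||
        ν ((c + 1) * Q + j + 1) then 4 else 0) = ∑ j ∈ range C.length, 4 := by
    rw [if_pos hy0, if_neg (by simp [hy1])] at h
    omega
  have h6 : ∀ j < C.length, ((!ν ((c + 1) * Q + j)) || tr ν (C.getD j (true, 0)) ||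
        ν ((c + 1) * Q + j + 1)) = true := by
    intro j hj
    by_contra hc
    have h7 := (Finset.sum_eq_sum_iff_of_le (s := range C.length)
      (f := fun j => if (!ν ((c + 1) * Q + j)) || tr ν (C.getD j (true, 0)) ||
        ν ((c + 1) * Q + j + 1) then 4 else 0) (g := fun _ => 4)
      (fun j _ => by beta_reduce; split_ifs <;> omega)).mp h5 j (Finset.mem_range.mpr hj)
    beta_reduce at h7
    rw [if_neg hc] at h7
    omega
  by_contra hcon
  have h8 : ∀ j ≤ C.length, ν ((c + 1) * Q + j) = true := by
    intro j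
    induction j with
    | zero => intro _; exact hy0
    | succ j ih =>
      intro hj
      have h9 := h6 j hj
      have h10 : tr ν (C.getD j (true, 0)) = false := by
        by_contra hc
        refine hcon ⟨C[j], List.getElem_mem _, ?_⟩
        rw [List.getD_eq_getElem _ _ hj] at hc
        simpa [tr] using hc
      rw [ih (by omega), h10] at h9
      have h11 : ν ((c + 1) * Q + j + 1) = true := by simpa using h9
      rw [add_assoc] at h11
      exact h11
  rw [h8 _ le_rfl] at hy1
  cases hy1

theorem score_xors_le (ν : ℕ → Bool) (φ : List (List (Bool × ℕ))) : score ν (xors φ) ≤ TT φ := by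
  unfold xors TT
  rw [score_flatMap, list_sum_range]
  exact Finset.sum_le_sum fun c _ => score_clauseX_le _ _ _ _

theorem sat_of_score (ν : ℕ → Bool) (φ : List (List (Bool × ℕ)))
    (h : TT φ ≤ score ν (xors φ)) : PT.Sat φ := by
  have h := le_antisymm (score_xors_le ν φ) h
  unfold xors TT at h
  rw [score_flatMap, list_sum_range] at h
  have h1 := (Finset.sum_eq_sum_iff_of_le (s := range φ.length)
      (f := fun c => score ν (clauseX (Qv φ) c (φ.getD c [])))
      (g := fun c => 2 + 4 * (φ.getD c []).length)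
      (fun c _ => score_clauseX_le _ _ _ _)).mp h
  refine ⟨ν, fun C hC => ?_⟩
  obtain ⟨c, hc, rfl⟩ := List.mem_iff_getElem.mp hC
  have h2 := h1 c (Finset.mem_range.mpr hc)
  rw [List.getD_eq_getElem _ _ hc] at h2
  exact clause_of_score ν (Qv φ) c _ h2

theorem clause_size {φ : List (List (Bool × ℕ))} {C : List (Bool × ℕ)} (hC : C ∈ φ) :
    C.length + 1 ≤ Qv φ ∧ ∀ l ∈ C, l.2 < Qv φ := by
  have h1 := PT.nodes_mem_lt hC
  have h2 := PT.length_le_nodes C
  refine ⟨by unfold Qv; omega, fun l hl => ?_⟩
  have h3 := PT.nodes_mem_lt hl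
  have h4 : (PT.toT l).nodes = (PT.toT l.1).nodes + l.2 + 1 := by
    obtain ⟨b, i⟩ := l
    rw [PT.nodes_pair, PT.nodes_nat]
  unfold Qv
  omega

theorem score_of_sat (φ : List (List (Bool × ℕ))) (h : PT.Sat φ) :
    ∃ ν, TT φ ≤ score ν (xors φ) := by
  obtain ⟨μ, hμ⟩ := h
  set Q := Qv φ with hQ
  have hQ0 : 0 < Q := by rw [hQ]; unfold Qv; omega
  set ν : ℕ → Bool := fun x => if x < Q then μ x else
    decide (∀ i < x % Q, tr μ ((φ.getD (x / Q - 1) []).getD i (true, 0)) = false) with hν
  have hν1 : ∀ x < Q, ν x = μ x := fun x hx => if_pos hx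
  have hν2 : ∀ c j, j < Q → ν ((c + 1) * Q + j) =
      decide (∀ i < j, tr μ ((φ.getD c []).getD i (true, 0)) = false) := by
    intro c j hj
    have h1 : ¬ ((c + 1) * Q + j < Q) := by
      have : Q ≤ (c + 1) * Q := Nat.le_mul_of_pos_left _ (Nat.succ_pos c)
      omega
    have h2 : ((c + 1) * Q + j) % Q = j := by
      rw [Nat.mul_comm, Nat.mul_add_mod, Nat.mod_eq_of_lt hj]
    have h3 : ((c + 1) * Q + j) / Q = c + 1 := by
      rw [Nat.mul_comm, Nat.mul_add_div hQ0, Nat.div_eq_of_lt hj, add_zero]
    rw [hν]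
    simp only [if_neg h1, h2, h3, Nat.add_sub_cancel]
  refine ⟨ν, ?_⟩
  unfold xors TT
  rw [score_flatMap, list_sum_range]
  refine Finset.sum_le_sum fun c hc => ?_
  rw [Finset.mem_range] at hc
  have hCm : φ.getD c [] ∈ φ := by
    rw [List.getD_eq_getElem _ _ hc]
    exact List.getElem_mem _
  obtain ⟨hlen, hvar⟩ := clause_size hCm
  rw [← hQ] at hlen hvar ⊢
  obtain ⟨l, hl, hl'⟩ := hμ _ hCm
  generalize hC : φ.getD c [] = C at *
  have hν2' : ∀ j, j < Q → ν ((c + 1) * Q + j) =
      decide (∀ i < j, tr μ (C.getD i (true, 0)) = false) := by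
    intro j hj
    rw [hν2 c j hj, hC]
  rw [score_clauseX]
  have e0 : ν ((c + 1) * Q) = true := by
    have := hν2' 0 hQ0
    rw [add_zero] at this
    rw [this]
    simp
  have e1 : ν ((c + 1) * Q + C.length) = false := by
    rw [hν2' _ (by omega), decide_eq_false_iff_not]
    intro hall
    obtain ⟨i, hi, hi'⟩ := List.mem_iff_getElem.mp hl
    have := hall i hi
    rw [List.getD_eq_getElem _ _ hi, hi'] at this
    simp [tr, hl'] at this
  rw [if_pos e0, if_neg (by simp [e1])]
  have h5 : ∑ j ∈ range C.length, 4 ≤ ∑ j ∈ range C.length,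
      (if (!ν ((c + 1) * Q + j)) || tr ν (C.getD j (true, 0)) ||
        ν ((c + 1) * Q + j + 1) then 4 else 0) := by
    refine Finset.sum_le_sum fun j hj => ?_
    rw [Finset.mem_range] at hj
    rw [if_pos]
    have htr : tr ν (C.getD j (true, 0)) = tr μ (C.getD j (true, 0)) := by
      unfold tr
      rw [hν1]
      rw [List.getD_eq_getElem _ _ hj]
      exact hvar _ (List.getElem_mem _)
    rw [htr, add_assoc, hν2' j (by omega), hν2' (j + 1) (by omega)]
    cases ht : tr μ (C.getD j (true, 0)) with
    | true => simp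
    | false =>
      by_cases hall : ∀ i < j, tr μ (C.getD i (true, 0)) = false
      · have hall' : ∀ i < j + 1, tr μ (C.getD i (true, 0)) = false := by
          intro i hi
          rcases Nat.lt_succ_iff_lt_or_eq.mp hi with h | h
          · exact hall i h
          · rw [h, ht]
        rw [decide_eq_true hall']
        simp
      · rw [decide_eq_false hall]
        simp
  rw [Finset.sum_const, Finset.card_range, smul_eq_mul] at h5
  omega

/-- The number of variables. -/
def nv (φ : List (List (Bool × ℕ))) : ℕ := (φ.length + 1) * Qv φ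

theorem xors_var (φ : List (List (Bool × ℕ))) : ∀ X ∈ xors φ, ∀ l ∈ X, l.2 < nv φ := by
  intro X hX l hl
  unfold xors at hX
  obtain ⟨c, hc, hX⟩ := List.mem_flatMap.mp hX
  rw [List.mem_range] at hc
  have hCm : φ.getD c [] ∈ φ := by
    rw [List.getD_eq_getElem _ _ hc]
    exact List.getElem_mem _
  obtain ⟨hlen, hvar⟩ := clause_size hCm
  generalize φ.getD c [] = C at *
  have hb : (c + 1) * Qv φ + Qv φ ≤ nv φ := by
    unfold nv
    have : (c + 1 + 1) * Qv φ ≤ (φ.length + 1) * Qv φ := Nat.mul_le_mul_right _ (by omega)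
    calc (c + 1) * Qv φ + Qv φ = (c + 1 + 1) * Qv φ := by ring
      _ ≤ _ := this
  have hq : Qv φ ≤ nv φ := by omega
  unfold clauseX at hX
  rw [List.mem_cons, List.mem_cons] at hX
  rcases hX with rfl | rfl | hX
  · rw [List.mem_singleton] at hl
    subst hl
    show (c + 1) * Qv φ < nv φ
    omega
  · rw [List.mem_singleton] at hl
    subst hl
    show (c + 1) * Qv φ + C.length < nv φ
    omega
  · obtain ⟨j, hj, hX⟩ := List.mem_flatMap.mp hX
    rw [List.mem_range] at hj
    have h1 : ∀ l, l = (false, (c + 1) * Qv φ + j) ∨ l = C.getD j (true, 0) ∨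
        l = (true, (c + 1) * Qv φ + j + 1) → l.2 < nv φ := by
      rintro l (rfl | rfl | rfl)
      · show (c + 1) * Qv φ + j < nv φ
        omega
      · rw [List.getD_eq_getElem _ _ hj]
        exact lt_of_lt_of_le (hvar _ (List.getElem_mem _)) hq
      · show (c + 1) * Qv φ + j + 1 < nv φ
        omega
    refine h1 l ?_
    unfold lits3 at hX
    simp only [List.mem_cons, List.not_mem_nil, or_false] at hX
    rcases hX with rfl | rfl | rfl | rfl | rfl | rfl | rfl <;>
      simp only [List.mem_cons, List.not_mem_nil, or_false] at hl <;> tauto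

/-- The unit of the large weights. -/
def KK (φ : List (List (Bool × ℕ))) : ℕ := 2 * Z2 (xors φ) + TT φ

/-- The large weights. -/
def WW (φ : List (List (Bool × ℕ))) (i : ℕ) : ℕ := (nv φ - i) * KK φ

/-- The sum of the large weights. -/
def SW (φ : List (List (Bool × ℕ))) : ℕ := ((List.range (nv φ)).map fun i => WW φ i).sum

/-- The forest of the formula. -/
def FF (φ : List (List (Bool × ℕ))) : List L := pairs (nv φ) (WW φ) (cts (xors φ))

/-- The number of the formula. -/
def kS (φ : List (List (Bool × ℕ))) : ℕ := 2 * nv φ + SW φ + (Z2 (xors φ) + TT φ)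

theorem SW_eq (φ : List (List (Bool × ℕ))) : SW φ = ∑ i ∈ range (nv φ), WW φ i :=
  list_sum_range _ _

theorem cts_length (𝒳 : List (List (Bool × ℕ))) (i : ℕ) (b : Bool) :
    (cts 𝒳 i b).length ≤ 2 * Z2 𝒳 := by
  unfold cts Z2
  rw [List.length_flatMap, list_sum_range, list_sum_range, Finset.mul_sum]
  refine Finset.sum_le_sum fun s _ => ?_
  have h1 : ∀ Y : List (Bool × ℕ), (Y.flatMap fun l => swl s (b == l.1)).length = 2 * Y.length := by
    intro Y
    induction Y with
    | nil => rfl
    | cons a Y ih =>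
      rw [List.flatMap_cons, List.length_append, ih, List.length_cons]
      have : (swl s (b == a.1)).length = 2 := by unfold swl; cases (b == a.1) <;> rfl
      rw [this]
      ring
  rw [h1]
  have h2 : ((𝒳.getD s []).filter fun l => l.2 == i).length ≤ (𝒳.getD s []).length :=
    List.length_filter_le _ _
  nlinarith

theorem cts_bound (𝒳 : List (List (Bool × ℕ))) (i : ℕ) (b : Bool) :
    ∀ x ∈ cts 𝒳 i b, x ≤ 2 * 𝒳.length := by
  intro x hx
  unfold cts at hx
  obtain ⟨s, hs, hx⟩ := List.mem_flatMap.mp hx
  obtain ⟨l, -, hx⟩ := List.mem_flatMap.mp hx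
  rw [List.mem_range] at hs
  unfold swl at hx
  cases h : (b == l.1) <;> rw [h] at hx <;>
    simp only [cond_true, cond_false, List.mem_cons, List.not_mem_nil, or_false] at hx <;>
    rcases hx with rfl | rfl <;> omega

theorem content_sum (n : ℕ) (𝒳 : List (List (Bool × ℕ))) (ν : ℕ → Bool)
    (h𝒳 : ∀ X ∈ 𝒳, ∀ l ∈ X, l.2 < n) : (content n (cts 𝒳) ν).sum = 2 * Z2 𝒳 := by
  rw [content_cts n 𝒳 ν h𝒳]
  have h0 : ∀ (S : Finset ℕ) (f : ℕ → Multiset ℕ), (∑ s ∈ S, f s).sum = ∑ s ∈ S, (f s).sum := by
    intro S f
    induction S using Finset.induction_on with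
    | empty => rfl
    | insert i S hi ih => rw [Finset.sum_insert hi, Finset.sum_insert hi, Multiset.sum_add, ih]
  unfold Z2
  rw [h0, list_sum_range, Finset.mul_sum]
  refine Finset.sum_congr rfl fun s _ => ?_
  generalize 𝒳.getD s [] = X
  induction X with
  | nil => simp
  | cons a X ih =>
    rw [List.map_cons, List.sum_cons, Multiset.sum_add, ih, List.length_cons]
    have : ((swl s (tr ν a) : List ℕ) : Multiset ℕ).sum = 2 * (2 * s + 1) := by
      unfold swl
      cases tr ν a
      · show (([2 * s + 1, 2 * s + 1] : List ℕ) : Multiset ℕ).sum = _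
        rw [Multiset.sum_coe]
        simp
        ring
      · show (([2 * s + 2, 2 * s] : List ℕ) : Multiset ℕ).sum = _
        rw [Multiset.sum_coe]
        simp
        ring
    rw [this]
    ring

theorem KK_le_WW (φ : List (List (Bool × ℕ))) {i : ℕ} (hi : i < nv φ) : KK φ ≤ WW φ i := by
  unfold WW
  exact Nat.le_mul_of_pos_left _ (by omega)

theorem gap (φ : List (List (Bool × ℕ))) {i j : ℕ} (hij : i < j) (hj : j < nv φ) :
    WW φ j + (Z2 (xors φ) + TT φ) ≤ WW φ i := by
  have h1 : Z2 (xors φ) + TT φ ≤ KK φ := by unfold KK; omega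
  unfold WW
  have h2 : (nv φ - j + 1) * KK φ ≤ (nv φ - i) * KK φ := Nat.mul_le_mul_right _ (by omega)
  have h3 : (nv φ - j + 1) * KK φ = (nv φ - j) * KK φ + KK φ := by ring
  omega

/-- The number for the game that starts with Dominator. -/
def kD (φ : List (List (Bool × ℕ))) : ℕ := 1 + kS φ

/-- The forest for the game that starts with Dominator. -/
def FD (φ : List (List (Bool × ℕ))) : List L := .sw (SW φ + (Z2 (xors φ) + TT φ)) :: FF φ

theorem TT_pos {φ : List (List (Bool × ℕ))} (h : ¬ PT.Sat φ) : 1 ≤ TT φ := by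
  cases φ with
  | nil => exact absurd ⟨fun _ => true, fun C hC => absurd hC List.not_mem_nil⟩ h
  | cons C φ =>
    unfold TT
    rw [list_sum_range, List.length_cons, Finset.sum_range_succ']
    omega

theorem sat_iff_S (φ : List (List (Bool × ℕ))) : PT.Sat φ ↔ (kS φ : ℕ∞) ≤ gammaMBS (gr (FF φ)) := by
  have hlen : ∀ i < nv φ, ∀ b, (cts (xors φ) i b).length ≤ WW φ i + 1 := fun i hi b => by
    have h1 := cts_length (xors φ) i b
    have h2 := KK_le_WW φ hi
    unfold KK at h2
    omega
  rw [le_gammaMBS_iff]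
  constructor
  · intro h j hj
    rw [stWins_iff]
    obtain ⟨ν, hν⟩ := score_of_sat φ h
    refine AS_lower (B := 2 * (xors φ).length) (v := Z2 (xors φ) + TT φ) hlen ν ?_ ?_
      (fun i j hij hj => gap φ hij hj) ?_
    · rw [up_content _ _ _ (xors_var φ)]
      omega
    · intro i hi
      have h2 := KK_le_WW φ hi
      unfold KK at h2
      omega
    · rw [← SW_eq]
      exact hj
  · intro h
    by_contra hns
    have hT := TT_pos hns
    have hk : kS φ - 1 < kS φ := by unfold kS; omega
    refine h _ hk ?_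
    rw [stWins_iff]
    have e : kS φ - 1 = 2 * nv φ + ∑ i ∈ range (nv φ), WW φ i + (Z2 (xors φ) + (TT φ - 1)) := by
      rw [← SW_eq]
      unfold kS
      omega
    rw [e]
    refine AS_upper (B := 2 * (xors φ).length) hlen (fun i _ b => cts_bound _ i b)
      (fun i hi ν => ?_) (fun ν => ?_)
    · rw [content_sum _ _ _ (xors_var φ)]
      have h2 := KK_le_WW φ hi
      unfold KK at h2
      omega
    · rw [up_content _ _ _ (xors_var φ)]
      have h3 : score ν (xors φ) < TT φ := by
        by_contra hc
        exact hns (sat_of_score ν φ (not_lt.mp hc))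
      omega

theorem sat_iff_D (φ : List (List (Bool × ℕ))) : PT.Sat φ ↔ (kD φ : ℕ∞) ≤ gammaMB (gr (FD φ)) := by
  have hlen : ∀ i < nv φ, ∀ b, (cts (xors φ) i b).length ≤ WW φ i + 1 := fun i hi b => by
    have h1 := cts_length (xors φ) i b
    have h2 := KK_le_WW φ hi
    unfold KK at h2
    omega
  rw [le_gammaMB_iff]
  constructor
  · intro h j hj
    rw [domWins_iff]
    obtain ⟨ν, hν⟩ := score_of_sat φ h
    refine AD_lower (B := 2 * (xors φ).length) (v := Z2 (xors φ) + TT φ) hlen ν ?_ ?_
      (fun i j hij hj => gap φ hij hj) ?_ ?_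
    · rw [up_content _ _ _ (xors_var φ)]
      omega
    · intro i hi
      have h2 := KK_le_WW φ hi
      unfold KK at h2
      omega
    · rw [← SW_eq]
    · rw [← SW_eq]
      exact hj
  · intro h
    by_contra hns
    have hT := TT_pos hns
    have hk : kD φ - 1 < kD φ := by unfold kD; omega
    refine h _ hk ?_
    rw [domWins_iff]
    have e : kD φ - 1
        = 1 + (2 * nv φ + ∑ i ∈ range (nv φ), WW φ i + (Z2 (xors φ) + (TT φ - 1))) := by
      rw [← SW_eq]
      unfold kD kS
      omega
    rw [e]
    refine AD_upper (B := 2 * (xors φ).length) hlen (fun i _ b => cts_bound _ i b)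
      (fun i hi ν => ?_) (fun ν => ?_) _
    · rw [content_sum _ _ _ (xors_var φ)]
      have h2 := KK_le_WW φ hi
      unfold KK at h2
      omega
    · rw [up_content _ _ _ (xors_var φ)]
      have h3 : score ν (xors φ) < TT φ := by
        by_contra hc
        exact hns (sat_of_score ν φ (not_lt.mp hc))
      omega

end Pool.Agent.Helper7.Cog
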