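import Pool.Agent.Helper7.Cog.Lower

/-!
Parity constraints and the value of a sum of pairs of trees.
-/

set_option autoImplicit false

namespace Pool.Agent.Helper7.Cog

open Finset

/-- The truth value of a literal. -/
def tr (ν : ℕ → Bool) (l : Bool × ℕ) : Bool := ν l.2 == l.1

/-- The number of true literals. -/
def nt (ν : ℕ → Bool) (X : List (Bool × ℕ)) : ℕ := X.countP (tr ν)

/-- The number of constraints with an odd number of true literals. -/
def score (ν : ℕ → Bool) (𝒳 : List (List (Bool × ℕ))) : ℕ := 𝒳.countP fun X => nt ν X % 2 == 1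

/-- The switches of a literal of the constraint number `s`. -/
def swl (s : ℕ) (b : Bool) : List ℕ := bif b then [2 * s + 2, 2 * s] else [2 * s + 1, 2 * s + 1]

/-- The content of the tree of the variable `i` and the value `b`. -/
def cts (𝒳 : List (List (Bool × ℕ))) (i : ℕ) (b : Bool) : List ℕ :=
  (List.range 𝒳.length).flatMap fun s =>
    ((𝒳.getD s []).filter fun l => l.2 == i).flatMap fun l => swl s (b == l.1)

/-- Half the total weight. -/
def Z2 (𝒳 : List (List (Bool × ℕ))) : ℕ :=
  ((List.range 𝒳.length).map fun s => (𝒳.getD s []).length * (2 * s + 1)).sum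

theorem coe_flatMap_range {α : Type} (m : ℕ) (h : ℕ → List α) :
    (((List.range m).flatMap h : List α) : Multiset α) = ∑ s ∈ range m, (h s : Multiset α) := by
  induction m with
  | zero => rfl
  | succ m ih =>
    rw [Finset.sum_range_succ, List.range_succ, List.flatMap_append, ← Multiset.coe_add, ih]
    simp

theorem sum_filter_flatMap (n : ℕ) (h : ℕ → Bool × ℕ → List ℕ) (X : List (Bool × ℕ))
    (hX : ∀ l ∈ X, l.2 < n) :
    ∑ i ∈ range n, (((X.filter fun l => l.2 == i).flatMap (h i) : List ℕ) : Multiset ℕ)
      = (X.map fun l => (h l.2 l : Multiset ℕ)).sum := by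
  induction X with
  | nil => simp
  | cons a X ih =>
    have ih' := ih (fun l hl => hX l (List.mem_cons_of_mem _ hl))
    rw [List.map_cons, List.sum_cons, ← ih']
    have e : ∀ i, ((((a :: X).filter fun l => l.2 == i).flatMap (h i) : List ℕ) : Multiset ℕ)
        = (if i = a.2 then (h i a : Multiset ℕ) else 0) +
          (((X.filter fun l => l.2 == i).flatMap (h i) : List ℕ) : Multiset ℕ) := by
      intro i
      by_cases hi : a.2 = i
      · rw [List.filter_cons_of_pos (by simpa using hi), List.flatMap_cons, ← Multiset.coe_add,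
          if_pos hi.symm]
      · rw [List.filter_cons_of_neg (by simpa using hi), if_neg (fun h => hi h.symm), zero_add]
    simp only [e]
    rw [Finset.sum_add_distrib, Finset.sum_ite_eq' (range n) a.2 (fun i => (h i a : Multiset ℕ)),
      if_pos (Finset.mem_range.mpr (hX a (List.mem_cons_self)))]

/-- The chosen content. -/
theorem content_cts (n : ℕ) (𝒳 : List (List (Bool × ℕ))) (ν : ℕ → Bool)
    (h𝒳 : ∀ X ∈ 𝒳, ∀ l ∈ X, l.2 < n) :
    content n (cts 𝒳) ν = ∑ s ∈ range 𝒳.length,
      ((𝒳.getD s []).map fun l => (swl s (tr ν l) : Multiset ℕ)).sum := by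
  unfold content cts
  simp only [coe_flatMap_range]
  rw [Finset.sum_comm]
  refine Finset.sum_congr rfl fun s hs => ?_
  rw [Finset.mem_range] at hs
  exact sum_filter_flatMap n (fun i l => swl s (ν i == l.1)) (𝒳.getD s [])
    (fun l hl => h𝒳 _ (by rw [List.getD_eq_getElem _ _ hs]; exact List.getElem_mem _) l hl)

theorem cnt_sum {ι : Type} (S : Finset ι) (f : ι → Multiset ℕ) (t : ℕ) :
    cnt (∑ s ∈ S, f s) t = ∑ s ∈ S, cnt (f s) t := by
  classical
  induction S using Finset.induction_on with
  | empty => rfl
  | insert i S hi ih => rw [Finset.sum_insert hi, Finset.sum_insert hi, cnt_add, ih]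

theorem cnt_list_sum (s t : ℕ) (ν : ℕ → Bool) (X : List (Bool × ℕ)) :
    cnt ((X.map fun l => (swl s (tr ν l) : Multiset ℕ)).sum) t
      = nt ν X * (if t < 2 * s + 2 then 1 else 0) + nt ν X * (if t < 2 * s then 1 else 0)
        + (X.length - nt ν X) * (2 * if t < 2 * s + 1 then 1 else 0) := by
  induction X with
  | nil => simp [nt, cnt_zero]
  | cons a X ih =>
    rw [List.map_cons, List.sum_cons, cnt_add, ih]
    have hle : nt ν X ≤ X.length := List.countP_le_length
    unfold nt at *
    rw [List.countP_cons, List.length_cons]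
    have h0 : ∀ x y : ℕ, cnt (([x, y] : List ℕ) : Multiset ℕ) t
        = (if t < x then 1 else 0) + if t < y then 1 else 0 := by
      intro x y
      show cnt (x ::ₘ y ::ₘ 0) t = _
      rw [cnt_cons, cnt_cons, cnt_zero]
      omega
    cases hb : tr ν a with
    | true =>
      show cnt (([2 * s + 2, 2 * s] : List ℕ) : Multiset ℕ) t + _ = _
      rw [h0, if_pos rfl]
      have e : X.length + 1 - (List.countP (tr ν) X + 1) = X.length - List.countP (tr ν) X := by
        omega
      rw [e]
      ring
    | false =>
      show cnt (([2 * s + 1, 2 * s + 1] : List ℕ) : Multiset ℕ) t + _ = _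
      rw [h0]
      have e : X.length + 1 - (List.countP (tr ν) X + 0)
          = (X.length - List.countP (tr ν) X) + 1 := by
        omega
      simp only [Bool.false_eq_true, if_false]
      rw [e]
      ring

/-- The value of the chosen content. -/
theorem up_content (n : ℕ) (𝒳 : List (List (Bool × ℕ))) (ν : ℕ → Bool)
    (h𝒳 : ∀ X ∈ 𝒳, ∀ l ∈ X, l.2 < n) :
    up (2 * 𝒳.length) (content n (cts 𝒳) ν) = Z2 𝒳 + score ν 𝒳 := by
  rw [content_cts n 𝒳 ν h𝒳]
  set m := 𝒳.length with hm
  set a : ℕ → ℕ := fun s => nt ν (𝒳.getD s []) with ha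
  set ℓ : ℕ → ℕ := fun s => (𝒳.getD s []).length with hℓ
  have hle : ∀ s, a s ≤ ℓ s := fun s => List.countP_le_length
  have hcnt : ∀ t, cnt (∑ s ∈ range m,
      ((𝒳.getD s []).map fun l => (swl s (tr ν l) : Multiset ℕ)).sum) t
      = ∑ s ∈ range m, (a s * (if t < 2 * s + 2 then 1 else 0) + a s * (if t < 2 * s then 1 else 0)
        + (ℓ s - a s) * (2 * if t < 2 * s + 1 then 1 else 0)) := by
    intro t
    rw [cnt_sum]
    exact Finset.sum_congr rfl fun s _ => cnt_list_sum s t ν _
  -- the tail sums
  set S : ℕ → ℕ := fun u => ∑ s ∈ (range m).filter (fun s => u < s), ℓ s with hS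
  have h0 : ∀ u < m, cnt (∑ s ∈ range m,
      ((𝒳.getD s []).map fun l => (swl s (tr ν l) : Multiset ℕ)).sum) (2 * u)
      = a u + 2 * (ℓ u - a u) + 2 * S u := by
    intro u hu
    rw [hcnt, ← Finset.add_sum_erase _ _ (Finset.mem_range.mpr hu)]
    have e1 : ∑ s ∈ (range m).erase u, (a s * (if 2 * u < 2 * s + 2 then 1 else 0)
        + a s * (if 2 * u < 2 * s then 1 else 0)
        + (ℓ s - a s) * (2 * if 2 * u < 2 * s + 1 then 1 else 0)) = 2 * S u := by
      rw [hS, Finset.mul_sum, Finset.sum_filter, ← Finset.add_sum_erase (range m) _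
        (Finset.mem_range.mpr hu), if_neg (lt_irrefl u), zero_add]
      refine Finset.sum_congr rfl fun s hs => ?_
      have hne := Finset.ne_of_mem_erase hs
      have := hle s
      rcases lt_or_gt_of_ne hne with h | h
      · rw [if_neg (by omega), if_neg (by omega), if_neg (by omega), if_neg (by omega)]
        ring
      · rw [if_pos (by omega), if_pos (by omega), if_pos (by omega), if_pos (by omega)]
        omega
    rw [e1, if_pos (by omega), if_neg (by omega), if_pos (by omega)]
    ring
  have h1 : ∀ u < m, cnt (∑ s ∈ range m,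
      ((𝒳.getD s []).map fun l => (swl s (tr ν l) : Multiset ℕ)).sum) (2 * u + 1)
      = a u + 2 * S u := by
    intro u hu
    rw [hcnt, ← Finset.add_sum_erase _ _ (Finset.mem_range.mpr hu)]
    have e1 : ∑ s ∈ (range m).erase u, (a s * (if 2 * u + 1 < 2 * s + 2 then 1 else 0)
        + a s * (if 2 * u + 1 < 2 * s then 1 else 0)
        + (ℓ s - a s) * (2 * if 2 * u + 1 < 2 * s + 1 then 1 else 0)) = 2 * S u := by
      rw [hS, Finset.mul_sum, Finset.sum_filter, ← Finset.add_sum_erase (range m) _
        (Finset.mem_range.mpr hu), if_neg (lt_irrefl u), zero_add]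
      refine Finset.sum_congr rfl fun s hs => ?_
      have hne := Finset.ne_of_mem_erase hs
      have := hle s
      rcases lt_or_gt_of_ne hne with h | h
      · rw [if_neg (by omega), if_neg (by omega), if_neg (by omega), if_neg (by omega)]
        ring
      · rw [if_pos (by omega), if_pos (by omega), if_pos (by omega), if_pos (by omega)]
        omega
    rw [e1, if_pos (by omega), if_neg (by omega), if_neg (by omega)]
    ring
  have hpair : ∀ (g : ℕ → ℕ) (k : ℕ), ∑ t ∈ range (2 * k), g t
      = ∑ u ∈ range k, (g (2 * u) + g (2 * u + 1)) := by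
    intro g k
    induction k with
    | zero => rfl
    | succ k ih =>
      rw [Finset.sum_range_succ, ← ih, show 2 * (k + 1) = 2 * k + 1 + 1 by ring,
        Finset.sum_range_succ, Finset.sum_range_succ]
      ring
  unfold up
  rw [hpair]
  have h2 : ∀ u ∈ range m, ((cnt (∑ s ∈ range m,
      ((𝒳.getD s []).map fun l => (swl s (tr ν l) : Multiset ℕ)).sum) (2 * u) + 1) / 2
      + (cnt (∑ s ∈ range m,
      ((𝒳.getD s []).map fun l => (swl s (tr ν l) : Multiset ℕ)).sum) (2 * u + 1) + 1) / 2)
      = (ℓ u + 2 * S u) + a u % 2 := by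
    intro u hu
    rw [Finset.mem_range] at hu
    rw [h0 u hu, h1 u hu]
    have := hle u
    omega
  rw [Finset.sum_congr rfl h2, Finset.sum_add_distrib]
  congr 1
  · rw [Finset.sum_add_distrib, ← Finset.mul_sum]
    have e2 : ∑ u ∈ range m, S u = ∑ s ∈ range m, s * ℓ s := by
      rw [hS]
      simp only [Finset.sum_filter]
      rw [Finset.sum_comm]
      refine Finset.sum_congr rfl fun s hs => ?_
      rw [Finset.mem_range] at hs
      rw [← Finset.sum_filter, Finset.sum_const, smul_eq_mul]
      congr 1
      have : (range m).filter (fun u => u < s) = range s := by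
        ext x
        simp only [Finset.mem_filter, Finset.mem_range]
        omega
      rw [this, Finset.card_range]
    rw [e2]
    unfold Z2
    have e3 : ∀ (k : ℕ) (f : ℕ → ℕ), ((List.range k).map f).sum = ∑ s ∈ range k, f s := by
      intro k f
      induction k with
      | zero => rfl
      | succ k ih => rw [Finset.sum_range_succ, List.range_succ, List.map_append, List.sum_append, ih]
                     simp
    rw [e3, Finset.mul_sum, ← Finset.sum_add_distrib]
    refine Finset.sum_congr rfl fun s _ => ?_
    ring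
  · unfold score
    have e4 : ∀ (p : List (Bool × ℕ) → Bool) (Y : List (List (Bool × ℕ))),
        Y.countP p = ∑ s ∈ range Y.length, if p (Y.getD s []) then 1 else 0 := by
      intro p Y
      induction Y using List.reverseRecOn with
      | nil => rfl
      | append_singleton Y y ih =>
        rw [List.countP_append, ih, List.length_append, List.length_singleton,
          Finset.sum_range_succ]
        congr 1
        · refine Finset.sum_congr rfl fun s hs => ?_
          rw [Finset.mem_range] at hs
          rw [List.getD_append _ _ _ _ hs]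
        · rw [List.getD_append_right _ _ _ _ (le_refl _)]
          simp [List.countP_singleton]
    rw [e4]
    refine Finset.sum_congr rfl fun s _ => ?_
    show nt ν (𝒳.getD s []) % 2 = if (nt ν (𝒳.getD s []) % 2 == 1) = true then 1 else 0
    rcases Nat.mod_two_eq_zero_or_one (nt ν (𝒳.getD s [])) with h | h <;> rw [h] <;> rfl

end Pool.Agent.Helper7.Cog
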